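import Pool.Agent.Helper50.BA.Final

set_option autoImplicit false

/-!
# Closed alternating braids in lens spaces

## The manifolds

Let `V` be a solid torus and `L ⊂ V` a closed alternating braid with `n ≥ 2` strands. Each crossing
may be replaced by a rational tangle of the same sign (or left out). The curve `λ` is the boundary
curve of a meridian disc of `V`, it winds around the `n` strands, and `m` is the curve on the
boundary of `V` that goes once around `V`, parallel to the braid; if `V` is the complement of the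
axis of the braid in the 3-sphere then `m` is the meridian of the axis. Fill the outside of `V` by a
second solid torus in which `m ^ P * λ ^ Q` bounds a disc (`P`, `Q` coprime). This gives a lens space
with first homology of order `P`, and `L` is a closed alternating braid in one of its two solid tori.
Let `M(P, Q)` be the double cover of this lens space branched along `L` whose covering involution is
nontrivial over `m` (it exists if `P + n Q` is even). If `P = 2 P'`, `Q = 2 Q'` with coprime
`P', Q'` and odd `P' + n Q'` then `M(P, Q)` is the double cover of the lens space with the parameters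
`P', Q'`, branched along the union of `L` and the core of the second solid torus. (For
`P' = 1`, `Q' = 0` this is the union of `L` and its axis in the 3-sphere.)

For braids without rational tangles the manifolds `M(P, Q)` are the Dehn fillings of the mapping
torus of the composition of the hyperelliptic involution and the lift of the braid to the double
cover of the disc that is branched in `n` points, a surface of genus `⌊(n - 1) / 2⌋` with one or two
boundary components.

## The group

The fundamental group of `M(P, Q)` is the kernel of the homomorphism to `±1` that sends all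
generators to `-1`, of the orbifold group with the following presentation. The braid is cut into
`N + 1` slices; in the slice `ℓ` there is the rational tangle `p / q` between the strands `i` and
`i + 1`. There is a generator `x ℓ k` of order two for each strand `k < n` at each level `ℓ ≤ N`
(before the slice `ℓ`), and the generator `m`; we put `x (N + 1) k = m⁻¹ (x 0 k) m`. The
slice `ℓ` has the relations `x' k = x k` for `k ≠ i, i + 1`, `x' i * x' (i + 1) = x i * x (i + 1)` and
`(x' i * x i) ^ q = (x i * x (i + 1)) ^ (± p)`, where `x = x ℓ`, `x' = x (ℓ + 1)` and the sign is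
`(-1) ^ i`. For `p = q = 1` these are the Wirtinger relations of a crossing. The last relation is
`m ^ P * λ ^ Q = 1` with `λ = x 0 0 * x 0 1 * ⋯ * x 0 (n - 1)`.

## The theorem

If `P ≥ 1` and `(n - 2) |Q| ≤ P` then every homomorphism from the fundamental group of `M(P, Q)` to a
left-orderable group is trivial. (If all tangles are trivial, then `M(P, Q)` is a Seifert manifold
with at least `n` exceptional fibres of order two, and the bound for `Q` cannot be improved.)

## The proof

A homomorphism from the kernel to a left-ordered group allows us to compare elements of the orbifold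
group of the same degree. Fix an element `s` with `m² s < s`. The strands of the infinite
cyclic cover of the braid diagram get the values `x s`. Call the strand high if
`x s ≥ m⁻¹ s` and low if `x s ≤ m s`. A strand is low if and only if its translate by one period is
high. At a crossing the value of the
overpass is between those of the two ends of the underpass, hence, because the diagram is
alternating, a high strand can be followed to infinity along high strands
(`Pool.Agent.Helper50.BA.trap`). The high strands and the low strands cannot cross, and the strip has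
bounded width, so the high strands cannot be disjoint from their translate
(`Pool.Agent.Helper50.BA.no_translate`). Therefore no strand is high: `m s < x s < m⁻¹ s` for all
strands `x` and all `s`. Since `x y s ≤ s` for some `s` and the last two strands
`x, y`, the element `λ` moves some point less than `m⁻¹ ^ (n - 2)` does, and this contradicts the
filling relation.
-/

universe u

namespace Pool.Agent.Results.MP_3d425c_gt.AlternatingBraids

open Pool.Agent.Helper50.BA

/-- A nontrivial group is left-orderable if it carries a strict total order that is invariant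
under left multiplication. -/
def LeftOrderable (G : Type*) [Group G] : Prop :=
  Nontrivial G ∧ ∃ lt : G → G → Prop, IsStrictTotalOrder G lt ∧
    ∀ a b c : G, lt a b ↔ lt (c * a) (c * b)

/-- A slice of an alternating braid with `n` strands: the rational tangle `p / q` between the
strands `i` and `i + 1` (`p = q = 1` is a crossing, `p = 0`, `q = 1` is no crossing). -/
structure Slice (n : ℕ) where
  i : ℕ
  lt : i + 1 < n
  p : ℕ
  q : ℕ
  q_pos : 1 ≤ q

/-- The generators: the strands `k < n` at the levels `ℓ ≤ N`, and `m`. -/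
abbrev Gen (n N : ℕ) : Type := Option (Fin (N + 1) × Fin n)

section presentation

variable {n N : ℕ}

/-- The generator `m`. -/
def m : FreeGroup (Gen n N) := FreeGroup.of none

/-- The strand `k` at the level `ℓ ≤ N + 1`. -/
def x (ℓ k : ℕ) : FreeGroup (Gen n N) :=
  if hk : k < n then
    if hℓ : ℓ < N + 1 then FreeGroup.of (some (⟨ℓ, hℓ⟩, ⟨k, hk⟩))
    else m⁻¹ * FreeGroup.of (some (0, ⟨k, hk⟩)) * m
  else 1

/-- The product of all strands at the level `0`. -/
def lam : FreeGroup (Gen n N) := ((List.range n).map (x 0)).prod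

/-- The relators of the orbifold group. -/
def relators (w : Fin (N + 1) → Slice n) (P : ℕ) (Q : ℤ) : Set (FreeGroup (Gen n N)) :=
  {r | (∃ ℓ k, ℓ ≤ N ∧ k < n ∧ r = x ℓ k ^ 2) ∨
    (∃ (ℓ : Fin (N + 1)) (k : ℕ), k < n ∧ k ≠ (w ℓ).i ∧ k ≠ (w ℓ).i + 1 ∧
      r = x (ℓ + 1) k * (x ℓ k)⁻¹) ∨
    (∃ ℓ : Fin (N + 1), r = x (ℓ + 1) (w ℓ).i * x (ℓ + 1) ((w ℓ).i + 1) *
      (x ℓ (w ℓ).i * x ℓ ((w ℓ).i + 1))⁻¹) ∨
    (∃ ℓ : Fin (N + 1), r = (x (ℓ + 1) (w ℓ).i * x ℓ (w ℓ).i) ^ (w ℓ).q *
      ((x ℓ (w ℓ).i * x ℓ ((w ℓ).i + 1)) ^ ((-1) ^ (w ℓ).i * ((w ℓ).p : ℤ)))⁻¹) ∨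
    r = m ^ P * lam ^ Q}

/-- The orbifold group. -/
abbrev Orb (w : Fin (N + 1) → Slice n) (P : ℕ) (Q : ℤ) : Type := PresentedGroup (relators w P Q)

/-- The homomorphism of the free group to `±1` that sends all generators to `-1`. -/
def sgn : FreeGroup (Gen n N) →* ℤˣ := FreeGroup.lift fun _ => -1

theorem sgn_m : sgn (m : FreeGroup (Gen n N)) = -1 := by simp [sgn, m]

theorem sgn_x {k : ℕ} (ℓ : ℕ) (hk : k < n) : sgn (x ℓ k : FreeGroup (Gen n N)) = -1 := by
  unfold x
  rw [dif_pos hk]
  split_ifs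
  · simp [sgn]
  · simp [sgn, m]

theorem sgn_lam : sgn (lam : FreeGroup (Gen n N)) = (-1) ^ n := by
  have h : ∀ l : List ℕ, (∀ k ∈ l, k < n) →
      sgn ((l.map (x 0)).prod : FreeGroup (Gen n N)) = (-1) ^ l.length := by
    intro l
    induction l with
    | nil => intro _; simp
    | cons a l ih =>
      intro hl
      rw [List.map_cons, List.prod_cons, map_mul, sgn_x 0 (hl a List.mem_cons_self),
        ih fun k hk => hl k (List.mem_cons_of_mem a hk), List.length_cons, pow_succ']
  have := h (List.range n) fun k hk => List.mem_range.mp hk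
  rwa [List.length_range] at this

theorem sgn_rel (w : Fin (N + 1) → Slice n) {P : ℕ} {Q : ℤ} (h : Even ((P : ℤ) + n * Q)) :
    ∀ r ∈ relators w P Q, sgn r = 1 := by
  rintro r (⟨ℓ, k, -, hk, rfl⟩ | ⟨ℓ, k, hk, -, -, rfl⟩ | ⟨ℓ, rfl⟩ | ⟨ℓ, rfl⟩ | rfl)
  · rw [map_pow, sgn_x ℓ hk]; simp
  · rw [map_mul, map_inv, sgn_x _ hk, sgn_x _ hk]; simp
  · have h1 := (w ℓ).lt
    have h2 : (w ℓ).i < n := by omega
    rw [map_mul, map_mul, map_inv, map_mul, sgn_x _ h1, sgn_x _ h2, sgn_x _ h1, sgn_x _ h2]; simp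
  · have h1 := (w ℓ).lt
    have h2 : (w ℓ).i < n := by omega
    rw [map_mul, map_pow, map_mul, map_inv, map_zpow, map_mul, sgn_x _ h1, sgn_x _ h2, sgn_x _ h2]
    simp
  · rw [map_mul, map_pow, map_zpow, sgn_m, sgn_lam]
    have h1 : ((-1 : ℤˣ) ^ P * ((-1) ^ n) ^ Q) = (-1) ^ ((P : ℤ) + n * Q) := by
      rw [zpow_add, zpow_natCast, zpow_mul, zpow_natCast]
    rw [h1, h.neg_one_zpow]

/-- The homomorphism of the orbifold group to `±1` that sends all generators to `-1`. -/
def deg (w : Fin (N + 1) → Slice n) (P : ℕ) (Q : ℤ) (h : Even ((P : ℤ) + n * Q)) :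
    Orb w P Q →* ℤˣ :=
  PresentedGroup.toGroup (f := fun _ => -1) (sgn_rel w h)

/-- The fundamental group of `M(P, Q)`. -/
abbrev CoverGroup (w : Fin (N + 1) → Slice n) (P : ℕ) (Q : ℤ) (h : Even ((P : ℤ) + n * Q)) :
    Type :=
  (deg w P Q h).ker

end presentation

section proof

variable {n N : ℕ} (w : Fin (N + 1) → Slice n) (P : ℕ) (Q : ℤ)

/-- the level of a time -/
def lev (N : ℕ) (τ : ℤ) : ℕ := (τ % ((N + 1 : ℕ) : ℤ)).toNat

theorem lev_lt (τ : ℤ) : lev N τ < N + 1 := by
  unfold lev
  have h1 := Int.emod_nonneg τ (b := ((N + 1 : ℕ) : ℤ)) (by positivity)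
  have h2 := Int.emod_lt_of_pos τ (b := ((N + 1 : ℕ) : ℤ)) (by positivity)
  omega

theorem lev_eq (τ : ℤ) : ((N + 1 : ℕ) : ℤ) * (τ / ((N + 1 : ℕ) : ℤ)) + lev N τ = τ := by
  unfold lev
  have h1 := Int.emod_nonneg τ (b := ((N + 1 : ℕ) : ℤ)) (by positivity)
  rw [Int.toNat_of_nonneg h1]
  exact Int.mul_ediv_add_emod τ _

theorem lev_of {τ j : ℤ} {ℓ : ℕ} (hℓ : ℓ < N + 1) (h : ((N + 1 : ℕ) : ℤ) * j + ℓ = τ) :
    lev N τ = ℓ ∧ τ / ((N + 1 : ℕ) : ℤ) = j := by
  have h1 := lev_eq (N := N) τ
  have h2 := lev_lt (N := N) τ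
  have h3 : τ / ((N + 1 : ℕ) : ℤ) = j := by
    rw [← h, add_comm, Int.add_mul_ediv_left _ _ (by positivity),
      Int.ediv_eq_zero_of_lt (by positivity) (by exact_mod_cast hℓ), zero_add]
  rw [h3] at h1
  exact ⟨by omega, h3⟩

/-- the strand in the orbifold group, at any time -/
def X (τ : ℤ) (k : ℕ) : Orb w P Q :=
  (PresentedGroup.of none : Orb w P Q) ^ (-(τ / ((N + 1 : ℕ) : ℤ))) *
    PresentedGroup.mk _ (x (lev N τ) k) *
    (PresentedGroup.of none : Orb w P Q) ^ (τ / ((N + 1 : ℕ) : ℤ))

/-- the position of the crossing -/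
def pos (τ : ℤ) : ℕ := (w ⟨lev N τ, lev_lt τ⟩).i

theorem mk_m : PresentedGroup.mk (relators w P Q) m = (PresentedGroup.of none : Orb w P Q) := rfl

theorem X_succ (τ : ℤ) {k : ℕ} (hk : k < n) :
    X w P Q (τ + 1) k = (PresentedGroup.of none : Orb w P Q) ^ (-(τ / ((N + 1 : ℕ) : ℤ))) *
      PresentedGroup.mk _ (x (lev N τ + 1) k) *
      (PresentedGroup.of none : Orb w P Q) ^ (τ / ((N + 1 : ℕ) : ℤ)) := by
  have h1 := lev_eq (N := N) τ
  have h2 := lev_lt (N := N) τ
  set j := τ / ((N + 1 : ℕ) : ℤ) with hj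
  by_cases h3 : lev N τ + 1 < N + 1
  · obtain ⟨h4, h5⟩ := lev_of (N := N) (τ := τ + 1) (j := j) h3 (by push_cast at h1 ⊢; linarith)
    unfold X
    rw [h4, h5]
  · have h6 : lev N τ = N := by omega
    obtain ⟨h4, h5⟩ := lev_of (N := N) (τ := τ + 1) (j := j + 1) (ℓ := 0) (by omega)
      (by rw [h6] at h1; push_cast at h1 ⊢; linarith)
    unfold X
    rw [h4, h5]
    have e : (x (lev N τ + 1) k : FreeGroup (Gen n N)) = m⁻¹ * x 0 k * m := by
      unfold x
      rw [dif_pos hk, dif_neg h3, dif_pos hk, dif_pos (Nat.succ_pos N)]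
      rfl
    rw [e, map_mul, map_mul, map_inv, mk_m]
    group

theorem shift_lev (τ : ℤ) : lev N (τ + ((N + 1 : ℕ) : ℤ)) = lev N τ ∧
    (τ + ((N + 1 : ℕ) : ℤ)) / ((N + 1 : ℕ) : ℤ) = τ / ((N + 1 : ℕ) : ℤ) + 1 := by
  have h1 := lev_eq (N := N) τ
  exact lev_of (lev_lt τ) (by push_cast at h1 ⊢; linarith)

theorem one_of_mem {r : FreeGroup (Gen n N)} (h : r ∈ relators w P Q) :
    PresentedGroup.mk (relators w P Q) r = 1 := PresentedGroup.one_of_mem h

/-- conjugation by a power of `m` -/
theorem conj_mul (g a b : Orb w P Q) (j : ℤ) :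
    (g ^ (-j) * a * g ^ j) * (g ^ (-j) * b * g ^ j) = g ^ (-j) * (a * b) * g ^ j := by
  group

theorem conj_npow (g a : Orb w P Q) (j : ℤ) (q : ℕ) :
    (g ^ (-j) * a * g ^ j) ^ q = g ^ (-j) * a ^ q * g ^ j := by
  have := _root_.conj_pow (i := q) (a := g ^ (-j)) (b := a)
  rwa [← zpow_neg, neg_neg] at this

theorem deg_mk (h : Even ((P : ℤ) + n * Q)) (r : FreeGroup (Gen n N)) :
    deg w P Q h (PresentedGroup.mk _ r) = sgn r := rfl

theorem strands (hP : Even ((P : ℤ) + n * Q)) :
    Strands (deg w P Q hP) (PresentedGroup.of none : Orb w P Q) n ((N + 1 : ℕ) : ℤ) (pos w)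
      Nat.bodd (X w P Q) where
  hN := by positivity
  hi τ := (w _).lt
  hδ k := Nat.bodd_succ k
  per τ := by
    unfold pos
    simp only [(shift_lev τ).1]
  dm := sgn_m
  dx τ k hk := by
    unfold X
    rw [map_mul, map_mul, map_zpow, map_zpow, deg_mk, sgn_x _ hk, mul_right_comm, ← zpow_add]
    simp
  sq τ k hk := by
    unfold X
    rw [conj_mul, ← map_mul]
    have h1 := one_of_mem w P Q (r := x (lev N τ) k ^ 2)
      (Or.inl ⟨lev N τ, k, Nat.lt_succ_iff.mp (lev_lt τ), hk, rfl⟩)
    rw [pow_two] at h1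
    rw [h1, mul_one, ← zpow_add, neg_add_cancel, zpow_zero]
  stay τ k hk h1 h2 := by
    rw [X_succ w P Q τ hk]
    unfold X
    have h3 := one_of_mem w P Q (r := x (lev N τ + 1) k * (x (lev N τ) k)⁻¹)
      (Or.inr (Or.inl ⟨⟨lev N τ, lev_lt τ⟩, k, hk, h1, h2, rfl⟩))
    rw [map_mul, map_inv, mul_inv_eq_one] at h3
    rw [h3]
  prod τ := by
    have hi : pos w τ + 1 < n := (w _).lt
    have h1 : pos w τ < n := by omega
    rw [X_succ w P Q τ hi, X_succ w P Q τ h1]
    unfold X
    rw [conj_mul, conj_mul]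
    have h3 := one_of_mem w P Q (r := x (lev N τ + 1) (pos w τ) * x (lev N τ + 1) (pos w τ + 1) *
      (x (lev N τ) (pos w τ) * x (lev N τ) (pos w τ + 1))⁻¹)
      (Or.inr (Or.inr (Or.inl ⟨⟨lev N τ, lev_lt τ⟩, rfl⟩)))
    rw [map_mul, map_inv, mul_inv_eq_one, map_mul, map_mul] at h3
    rw [h3]
  pow τ := by
    have hi : pos w τ + 1 < n := (w _).lt
    have h1 : pos w τ < n := by omega
    refine ⟨(w ⟨lev N τ, lev_lt τ⟩).p, (w ⟨lev N τ, lev_lt τ⟩).q, (w _).q_pos, ?_⟩
    rw [X_succ w P Q τ h1]
    have h3 := one_of_mem w P Q (r := (x (lev N τ + 1) (pos w τ) * x (lev N τ) (pos w τ)) ^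
        (w ⟨lev N τ, lev_lt τ⟩).q * ((x (lev N τ) (pos w τ) * x (lev N τ) (pos w τ + 1)) ^
        ((-1) ^ (pos w τ) * ((w ⟨lev N τ, lev_lt τ⟩).p : ℤ)))⁻¹)
      (Or.inr (Or.inr (Or.inr (Or.inl ⟨⟨lev N τ, lev_lt τ⟩, rfl⟩))))
    rw [map_mul, map_inv, mul_inv_eq_one, map_pow, map_zpow, map_mul, map_mul] at h3
    have sq : ∀ k, k < n → (PresentedGroup.mk (relators w P Q) (x (lev N τ) k))⁻¹ =
        PresentedGroup.mk (relators w P Q) (x (lev N τ) k) := by
      intro k hk
      have h1 := one_of_mem w P Q (r := x (lev N τ) k ^ 2)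
        (Or.inl ⟨lev N τ, k, Nat.lt_succ_iff.mp (lev_lt τ), hk, rfl⟩)
      rw [pow_two, map_mul] at h1
      exact inv_eq_of_mul_eq_one_right h1
    unfold X
    rw [conj_mul, conj_mul, conj_mul, conj_npow, conj_npow, conj_npow, h3]
    rcases Bool.eq_false_or_eq_true (Nat.bodd (pos w τ)) with hb | hb
    · rw [hb, if_pos rfl]
      have h4 : Odd (pos w τ) := Nat.odd_iff.mpr (by rw [Nat.mod_two_of_bodd, hb]; rfl)
      have h5 : ∀ (a b : Orb w P Q) (p : ℕ), a⁻¹ = a → b⁻¹ = b →
          (a * b) ^ (-(p : ℤ)) = (b * a) ^ p := by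
        intro a b p ha hb'
        rw [zpow_neg, zpow_natCast, ← inv_pow, mul_inv_rev, ha, hb']
      rw [h4.neg_one_pow, neg_one_mul, h5 _ _ _ (sq _ h1) (sq _ hi)]
    · rw [hb, if_neg (by decide)]
      have h4 : Even (pos w τ) := Nat.even_iff.mpr (by rw [Nat.mod_two_of_bodd, hb]; rfl)
      rw [h4.neg_one_pow, one_mul, zpow_natCast]
  shift τ k hk := by
    unfold X
    obtain ⟨h1, h2⟩ := shift_lev (N := N) τ
    rw [h1, h2]
    group

theorem gen : Subgroup.closure (insert (PresentedGroup.of none : Orb w P Q)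
    {g | ∃ τ k, k < n ∧ g = X w P Q τ k}) = ⊤ := by
  rw [eq_top_iff, ← PresentedGroup.closure_range_of (relators w P Q), Subgroup.closure_le]
  rintro _ ⟨a, rfl⟩
  rcases a with _ | ⟨ℓ, k⟩
  · exact Subgroup.subset_closure (Set.mem_insert _ _)
  · refine Subgroup.subset_closure (Set.mem_insert_of_mem _ ⟨(ℓ : ℕ), k, k.2, ?_⟩)
    obtain ⟨h1, h2⟩ := lev_of (N := N) (τ := ((ℓ : ℕ) : ℤ)) (j := 0) ℓ.2 (by ring)
    unfold X
    rw [h1, h2]
    have e : (x (ℓ : ℕ) (k : ℕ) : FreeGroup (Gen n N)) = FreeGroup.of (some (ℓ, k)) := by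
      unfold x
      rw [dif_pos k.2, dif_pos ℓ.2]
    rw [e]
    simp only [neg_zero, zpow_zero, one_mul, mul_one]
    rfl

theorem cover_trivial {H : Type u} [Group H] (hH : LeftOrderable H) (hP1 : 1 ≤ P)
    (hP : Even ((P : ℤ) + n * Q)) (hPQ : ((n : ℤ) - 2) * |Q| ≤ P)
    (f : CoverGroup w P Q hP →* H) (g : CoverGroup w P Q hP) : f g = 1 := by
  classical
  obtain ⟨_, lt, hlt, hinv⟩ := hH
  let _ : LinearOrder H := linearOrderOfSTO lt
  have hinv' : ∀ a b c : H, a ≤ b ↔ c * a ≤ c * b := by
    intro a b c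
    show (a = b ∨ lt a b) ↔ (c * a = c * b ∨ lt (c * a) (c * b))
    rw [mul_right_inj, ← hinv]
  refine (strands w P Q hP).hom_trivial f hinv' (gen w P Q) hP1 hPQ ?_ g
  have h1 := one_of_mem w P Q (r := m ^ P * lam ^ Q) (Or.inr (Or.inr (Or.inr (Or.inr rfl))))
  rw [map_mul, map_pow, map_zpow, mk_m] at h1
  have h2 : PresentedGroup.mk (relators w P Q) lam = ((List.range n).map (X w P Q 0)).prod := by
    unfold lam
    rw [map_list_prod, List.map_map]
    congr 1
    refine List.map_congr_left fun k _ => ?_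
    obtain ⟨h3, h4⟩ := lev_of (N := N) (τ := 0) (j := 0) (ℓ := 0) (Nat.succ_pos N) (by simp)
    unfold X
    rw [h3, h4]
    simp
  rw [h2] at h1
  exact h1

end proof

/-- Every homomorphism from the fundamental group of `M(P, Q)` to a left-orderable group is trivial
if `P ≥ 1` and `(n - 2) |Q| ≤ P`; in particular it is not left-orderable. -/
theorem result {n N : ℕ} (w : Fin (N + 1) → Slice n) (P : ℕ) (Q : ℤ) (hP : 1 ≤ P)
    (hpar : Even ((P : ℤ) + n * Q)) (hPQ : ((n : ℤ) - 2) * |Q| ≤ P) :
    (∀ (H : Type u) [Group H], LeftOrderable H →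
      ∀ (f : CoverGroup w P Q hpar →* H) (g : CoverGroup w P Q hpar), f g = 1) ∧
    ¬ LeftOrderable (CoverGroup w P Q hpar) := by
  refine ⟨fun H _ hH f g => cover_trivial w P Q hH hP hpar hPQ f g, fun h => ?_⟩
  obtain ⟨a, b, hab⟩ := h.1
  exact hab ((cover_trivial w P Q h hP hpar hPQ (MonoidHom.id _) a).trans
    (cover_trivial w P Q h hP hpar hPQ (MonoidHom.id _) b).symm)

end Pool.Agent.Results.MP_3d425c_gt.AlternatingBraids
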