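import Pool.Agent.Helper50.BA.Fill

set_option autoImplicit false

/-!
# Triviality of the homomorphisms
-/

namespace Pool.Agent.Helper50.BA

variable {G H : Type*} [Group G] [Group H]

namespace Strands

variable {d : G →* ℤˣ} {m : G} {n : ℕ} {N : ℤ} {i : ℤ → ℕ} {δ : ℕ → Bool} {x : ℤ → ℕ → G}
  (S : Strands d m n N i δ x)

include S

/-- The product of the first `k` strands does not change unless a crossing separates them. -/
theorem prod_step (τ : ℤ) : ∀ k, k ≤ n → k ≠ i τ + 1 →
    ((List.range k).map (x (τ + 1))).prod = ((List.range k).map (x τ)).prod := by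
  have hi := S.hi τ
  intro k
  induction k using Nat.strong_induction_on with
  | _ k ih =>
    intro hk hki
    rcases k with _ | k
    · rfl
    by_cases h1 : k = i τ + 1
    · subst h1
      have h2 := ih (i τ) (by omega) (by omega) (by omega)
      rw [List.range_succ, List.range_succ]
      simp only [List.map_append, List.map_cons, List.map_nil, List.prod_append,
        List.prod_singleton]
      rw [h2, mul_assoc, mul_assoc, S.prod τ]
    · rw [List.range_succ]
      simp only [List.map_append, List.map_cons, List.map_nil, List.prod_append,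
        List.prod_singleton]
      rw [ih k (by omega) (by omega) h1, S.stay τ k (by omega) (by omega) h1]

theorem prod_all (j : ℕ) :
    ((List.range n).map (x j)).prod = ((List.range n).map (x 0)).prod := by
  induction j with
  | zero => rfl
  | succ j ih =>
    rw [← ih]
    have h := S.hi j
    have := S.prod_step j n le_rfl (by omega)
    push_cast
    exact this

theorem comm : ((List.range n).map (x 0)).prod * m = m * ((List.range n).map (x 0)).prod := by
  have h1 := S.prod_all N.toNat
  have hN : ((N.toNat : ℕ) : ℤ) = N := Int.toNat_of_nonneg S.hN.le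
  rw [hN] at h1
  have h2 : (List.range n).map (x N) = (List.range n).map (fun k => m⁻¹ * x 0 k * m) := by
    refine List.map_congr_left fun k hk => ?_
    have := S.shift 0 k (List.mem_range.mp hk)
    rwa [zero_add] at this
  have h3 : ∀ l : List ℕ, (l.map (fun k => m⁻¹ * x 0 k * m)).prod = m⁻¹ * (l.map (x 0)).prod * m := by
    intro l
    induction l with
    | nil => simp
    | cons a l ih => rw [List.map_cons, List.prod_cons, ih, List.map_cons, List.prod_cons]; group
  rw [h2, h3] at h1
  calc ((List.range n).map (x 0)).prod * m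
      = m * (m⁻¹ * ((List.range n).map (x 0)).prod * m) := by group
    _ = _ := by rw [h1]

theorem no_down [LinearOrder H] (φ : d.ker →* H) (hinv : ∀ a b c : H, a ≤ b ↔ c * a ≤ c * b)
    (hgen : Subgroup.closure (insert m {g | ∃ τ k, k < n ∧ g = x τ k}) = ⊤)
    {P : ℕ} {Q : ℤ} (hP : 1 ≤ P) (hPQ : ((n : ℤ) - 2) * |Q| ≤ P)
    (hrel : m ^ P * ((List.range n).map (x 0)).prod ^ Q = 1) : ¬ ph φ (m * m) < 1 := by
  intro h
  have dmm : d (m * m) = 1 := by rw [map_mul, S.dm]; decide
  have h0 : Lt φ (m * 1) (m⁻¹ * 1) := by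
    refine ⟨by rw [map_mul, map_mul, S.dm, S.dm'], ?_⟩
    have e : (m * 1)⁻¹ * (m⁻¹ * 1) = (m * m)⁻¹ := by group
    rw [e, ph_inv φ dmm, ← inv_lt_iff hinv]
    exact h
  have hall := S.down_all φ hinv hgen h0
  have hM : ∀ s, Lt φ s (m⁻¹ * (m⁻¹ * s)) := by
    intro s
    have := hall s
    rwa [← mul_left_lt m⁻¹, inv_mul_cancel_left] at this
  have hx : ∀ k, k < n → ∀ s, Lt φ (x 0 k * s) (m⁻¹ * s) := fun k hk s =>
    (S.bound φ hinv (hall s) 0 hk).1
  have comm := S.comm
  set μ := ((List.range n).map (x 0)).prod with hμ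
  have comm' : μ * m⁻¹ = m⁻¹ * μ := by
    have h1 : Commute μ m := comm
    exact h1.inv_right.eq
  have hμQ : μ ^ Q = m⁻¹ ^ P := by
    rw [inv_pow]
    exact (inv_eq_of_mul_eq_one_right hrel).symm
  have inv_inv_list : μ⁻¹ = ((List.range n).map (x 0)).reverse.prod := by
    rw [hμ, List.prod_inv_reverse]
    congr 1
    rw [← List.map_reverse, ← List.map_reverse, List.map_map]
    refine List.map_congr_left fun k hk => ?_
    rw [List.mem_reverse, List.mem_range] at hk
    exact inv_eq_of_mul_eq_one_right (S.sq 0 k hk)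
  rcases lt_trichotomy Q 0 with hQ | hQ | hQ
  · obtain ⟨q, hq⟩ : ∃ q : ℕ, Q = -q := ⟨(-Q).toNat, by omega⟩
    refine no_filling (φ := φ) hinv S.dm' hM ((List.range n).map (x 0)).reverse ?_ ?_ ?_ ?_ hP
      (q := q) ?_ ?_
    · intro y hy s
      simp only [List.mem_reverse, List.mem_map, List.mem_range] at hy
      obtain ⟨k, hk, rfl⟩ := hy
      exact hx k hk s
    · intro y hy
      simp only [List.mem_reverse, List.mem_map, List.mem_range] at hy
      obtain ⟨k, hk, rfl⟩ := hy
      exact S.sq 0 k hk
    · intro y hy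
      simp only [List.mem_reverse, List.mem_map, List.mem_range] at hy
      obtain ⟨k, hk, rfl⟩ := hy
      exact S.dx 0 k hk
    · rw [← inv_inv_list]
      have h1 : Commute μ m⁻¹ := comm'
      exact h1.inv_left.eq
    · simp only [List.length_reverse, List.length_map, List.length_range]
      have : |Q| = q := by rw [hq, abs_neg, Nat.abs_cast]
      rw [← this]; exact hPQ
    · rw [← inv_inv_list, ← hμQ, hq, zpow_neg, zpow_natCast, inv_pow]
  · refine no_filling (φ := φ) hinv S.dm' hM [] (by simp) (by simp) (by simp) (by simp) hP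
      (q := 1) ?_ ?_
    · simp only [List.length_nil]; push_cast; omega
    · rw [← hμQ, hQ]; simp
  · obtain ⟨q, hq⟩ : ∃ q : ℕ, Q = q := ⟨Q.toNat, by omega⟩
    refine no_filling (φ := φ) hinv S.dm' hM ((List.range n).map (x 0)) ?_ ?_ ?_ comm' hP
      (q := q) ?_ ?_
    · intro y hy s
      simp only [List.mem_map, List.mem_range] at hy
      obtain ⟨k, hk, rfl⟩ := hy
      exact hx k hk s
    · intro y hy
      simp only [List.mem_map, List.mem_range] at hy
      obtain ⟨k, hk, rfl⟩ := hy
      exact S.sq 0 k hk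
    · intro y hy
      simp only [List.mem_map, List.mem_range] at hy
      obtain ⟨k, hk, rfl⟩ := hy
      exact S.dx 0 k hk
    · simp only [List.length_map, List.length_range]
      have : |Q| = q := by rw [hq, Nat.abs_cast]
      rw [← this]; exact hPQ
    · rw [← hμ, ← hμQ, hq, zpow_natCast]

theorem hom_trivial [o : LinearOrder H] (φ : d.ker →* H)
    (hinv : ∀ a b c : H, a ≤ b ↔ c * a ≤ c * b)
    (hgen : Subgroup.closure (insert m {g | ∃ τ k, k < n ∧ g = x τ k}) = ⊤)
    {P : ℕ} {Q : ℤ} (hP : 1 ≤ P) (hPQ : ((n : ℤ) - 2) * |Q| ≤ P)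
    (hrel : m ^ P * ((List.range n).map (x 0)).prod ^ Q = 1) (g : d.ker) : φ g = 1 := by
  have h1 := S.no_down φ hinv hgen hP hPQ hrel
  have h2 : ¬ 1 < ph φ (m * m) := by
    let o' : LinearOrder H := (inferInstance : LinearOrder (Hᵒᵈ))
    exact @Strands.no_down G H _ _ d m n N i δ x S o' φ (fun a b c => hinv b a c) hgen P Q hP hPQ
      hrel
  exact S.trivial_of_eq φ hinv hgen (le_antisymm (not_lt.mp h2) (not_lt.mp h1)) g

end Strands

end Pool.Agent.Helper50.BA
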