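import Pool.Agent.Helper50.BA.Strip

set_option autoImplicit false

/-!
# Nested curves

Two disjoint sets `H`, `L` of strands in an infinite diagram, both of which separate the top from the
bottom, do not both exist if `L` is the translate of `H` by a period.
-/

namespace Pool.Agent.Helper50.BA

open Relation

variable {n : ℕ} {i : ℤ → ℕ}

/-- reachable from above without crossing a strand of `X` -/
def U (n : ℕ) (i : ℤ → ℕ) (X : ℤ → ℕ → Prop) (p : ℤ × ℕ) : Prop :=
  Reach n i X (fun _ => True) p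

/-- the sites below `X` -/
def Below (n : ℕ) (i : ℤ → ℕ) (X : ℤ → ℕ → Prop) (p : ℤ × ℕ) : Prop :=
  ¬ U n i X p ∧ ∃ τ, ReflTransGen (fun a b => Step n i (fun _ _ => False) (fun _ => True) a b ∧
    ¬ U n i X a ∧ ¬ U n i X b) p (τ, n)

variable {X : ℤ → ℕ → Prop}

theorem U.step {p q : ℤ × ℕ} (h : U n i X p) (hs : Step n i X (fun _ => True) p q) :
    U n i X q := by
  obtain ⟨τ, h1, h2⟩ := h
  exact ⟨τ, h1, h2.tail hs⟩

theorem Step.any {p q : ℤ × ℕ} {P : ℤ → Prop} (h : Step n i X P p q) :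
    Step n i (fun _ _ => False) (fun _ => True) p q := by
  cases h with
  | down a b c => exact .down a id trivial
  | up a b c => exact .up a id trivial
  | right a b c => exact .right a trivial trivial
  | left a b c => exact .left a trivial trivial

theorem U_top (τ : ℤ) : U n i X (τ, 0) := ⟨τ, trivial, .refl⟩

theorem Below.mono_step {p q : ℤ × ℕ} (hs : Step n i X (fun _ => True) p q)
    (h : Below n i X q) : Below n i X p := by
  have hp : ¬ U n i X p := fun h1 => h.1 (h1.step hs)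
  obtain ⟨τ, h1⟩ := h.2
  exact ⟨hp, τ, h1.head ⟨hs.any, hp, h.1⟩⟩

theorem Below.congr {p q : ℤ × ℕ} (hs : Step n i X (fun _ => True) p q) :
    Below n i X p ↔ Below n i X q :=
  ⟨fun h => h.mono_step hs.symm, fun h => h.mono_step hs⟩

theorem not_below_top (τ : ℤ) : ¬ Below n i X (τ, 0) := fun h => h.1 (U_top τ)

/-- induction for the sites below `X` -/
theorem Below.induction {Q : ℤ × ℕ → Prop} (hb : ∀ τ, Below n i X (τ, n) → Q (τ, n))
    (hs : ∀ p q, Step n i (fun _ _ => False) (fun _ => True) p q → Below n i X p →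
      Below n i X q → Q q → Q p) {p : ℤ × ℕ} (h : Below n i X p) : Q p := by
  obtain ⟨h0, τ, h1⟩ := h
  have key : ∀ p, ReflTransGen (fun a b => Step n i (fun _ _ => False) (fun _ => True) a b ∧
      ¬ U n i X a ∧ ¬ U n i X b) p (τ, n) → ¬ U n i X p → Q p ∧ Below n i X p := by
    intro p hp
    induction hp using ReflTransGen.head_induction_on with
    | refl => intro h2; exact ⟨hb τ ⟨h2, τ, .refl⟩, h2, τ, .refl⟩
    | @head a c hac hc ih =>
      intro h2
      obtain ⟨ih1, ih2⟩ := ih hac.2.2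
      have h3 : Below n i X a := ⟨h2, τ, hc.head hac⟩
      exact ⟨hs a c hac.1 h3 ih2 ih1, h3⟩
  exact (key p h1 h0).1

/-- induction for the sites above `X` -/
theorem above_induction {Q : ℤ × ℕ → Prop} (ht : ∀ τ, Q (τ, 0))
    (hs : ∀ p q, Step n i (fun _ _ => False) (fun _ => True) p q → ¬ Below n i X p →
      ¬ Below n i X q → Q p → Q q) : ∀ g, g ≤ n → ∀ τ, ¬ Below n i X (τ, g) → Q (τ, g) := by
  have hU : ∀ p, U n i X p → Q p := by
    rintro p ⟨τ, -, h⟩
    induction h with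
    | refl => exact ht τ
    | @tail b c hab hbc ih =>
      have h1 : U n i X b := ⟨τ, trivial, hab⟩
      exact hs b c hbc.any (fun h => h.1 h1) (fun h => h.1 (h1.step hbc)) ih
  intro g
  induction g with
  | zero => intro _ τ _; exact ht τ
  | succ g ih =>
    intro hg τ hb
    by_cases hu : U n i X (τ, g + 1)
    · exact hU _ hu
    have hst : Step n i (fun _ _ => False) (fun _ => True) (τ, g) (τ, g + 1) :=
      .down (by omega) id trivial
    have hb' : ¬ Below n i X (τ, g) := by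
      intro h1
      obtain ⟨σ, h2⟩ := h1.2
      exact hb ⟨hu, σ, h2.head ⟨hst.symm, hu, h1.1⟩⟩
    exact hs _ _ hst hb' hb (ih (by omega) τ hb')

/-! ### Translation -/

variable {Y : ℤ → ℕ → Prop} {c : ℤ}

theorem Step.shift (hXY : ∀ τ k, X τ k ↔ Y (τ + c) k) (hc : ∀ τ, i (τ + c) = i τ)
    {p q : ℤ × ℕ} (h : Step n i X (fun _ => True) p q) :
    Step n i Y (fun _ => True) (p.1 + c, p.2) (q.1 + c, q.2) := by
  cases h with
  | @down τ k a b _ => exact .down a (fun h => b ((hXY τ k).mpr h)) trivial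
  | @up τ k a b _ => exact .up a (fun h => b ((hXY τ k).mpr h)) trivial
  | @right τ g a _ _ =>
    have := Step.right (n := n) (i := i) (X := Y) (P := fun _ => True) (τ := τ + c) (g := g)
      (by rw [hc]; exact a) trivial trivial
    simpa only [add_right_comm] using this
  | @left τ g a _ _ =>
    have := Step.left (n := n) (i := i) (X := Y) (P := fun _ => True) (τ := τ + c) (g := g)
      (by rw [hc]; exact a) trivial trivial
    simpa only [add_right_comm] using this

theorem U.shift (hXY : ∀ τ k, X τ k ↔ Y (τ + c) k) (hc : ∀ τ, i (τ + c) = i τ)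
    {p : ℤ × ℕ} (h : U n i X p) : U n i Y (p.1 + c, p.2) := by
  obtain ⟨τ, _, h⟩ := h
  exact ⟨τ + c, trivial, ReflTransGen.lift (fun p : ℤ × ℕ => (p.1 + c, p.2))
    (fun a b hab => hab.shift hXY hc) _ _ h⟩

theorem U_shift_iff (hXY : ∀ τ k, X τ k ↔ Y (τ + c) k) (hc : ∀ τ, i (τ + c) = i τ)
    (p : ℤ × ℕ) : U n i X p ↔ U n i Y (p.1 + c, p.2) := by
  refine ⟨fun h => h.shift hXY hc, fun h => ?_⟩
  have := h.shift (X := Y) (Y := X) (c := -c)
    (fun τ k => by rw [hXY, neg_add_cancel_right]) (fun τ => by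
      rw [← hc (τ + -c), neg_add_cancel_right])
  simpa using this

theorem Below.shift (hXY : ∀ τ k, X τ k ↔ Y (τ + c) k) (hc : ∀ τ, i (τ + c) = i τ)
    {p : ℤ × ℕ} (h : Below n i X p) : Below n i Y (p.1 + c, p.2) := by
  obtain ⟨h0, τ, h1⟩ := h
  refine ⟨fun h => h0 ((U_shift_iff hXY hc p).mpr h), τ + c,
    ReflTransGen.lift (fun p : ℤ × ℕ => (p.1 + c, p.2)) (fun a b hab => ?_) _ _ h1⟩
  exact ⟨hab.1.shift (fun _ _ => Iff.rfl) hc, fun h => hab.2.1 ((U_shift_iff hXY hc a).mpr h),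
    fun h => hab.2.2 ((U_shift_iff hXY hc b).mpr h)⟩

theorem below_shift_iff (hXY : ∀ τ k, X τ k ↔ Y (τ + c) k) (hc : ∀ τ, i (τ + c) = i τ)
    (p : ℤ × ℕ) : Below n i X p ↔ Below n i Y (p.1 + c, p.2) := by
  refine ⟨fun h => h.shift hXY hc, fun h => ?_⟩
  have := h.shift (X := Y) (Y := X) (c := -c)
    (fun τ k => by rw [hXY, neg_add_cancel_right]) (fun τ => by
      rw [← hc (τ + -c), neg_add_cancel_right])
  simpa using this

/-! ### The height function -/

/-- The rotation from the class `(a, b)` to `(a', b')`. -/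
def rot (a b a' b' : ℤ) : ℤ := (b' - b) * (1 - 2 * a) + (a' - a) * (2 * b - 1)

theorem face (n1 n2 w1 w2 s1 s2 e1 e2 : ℤ) (hn1 : n1 = 0 ∨ n1 = 1) (hn2 : n2 = 0 ∨ n2 = 1)
    (hw1 : w1 = 0 ∨ w1 = 1) (hw2 : w2 = 0 ∨ w2 = 1) (hs1 : s1 = 0 ∨ s1 = 1)
    (hs2 : s2 = 0 ∨ s2 = 1) (he1 : e1 = 0 ∨ e1 = 1) (he2 : e2 = 0 ∨ e2 = 1)
    (hnw : n1 = w1 ∨ n2 = w2) (hws : w1 = s1 ∨ w2 = s2) (hne : n1 = e1 ∨ n2 = e2)
    (hes : e1 = s1 ∨ e2 = s2)
    (h1 : n1 = w1 ∨ w2 = s2 ∨ e1 = s1 ∨ n2 = e2) (h2 : n2 = w2 ∨ w1 = s1 ∨ e2 = s2 ∨ n1 = e1) :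
    rot n1 n2 w1 w2 + rot w1 w2 s1 s2 = rot n1 n2 e1 e2 + rot e1 e2 s1 s2 := by
  rcases hn1 with rfl | rfl <;> rcases hn2 with rfl | rfl <;> rcases hw1 with rfl | rfl <;>
  rcases hw2 with rfl | rfl <;> rcases hs1 with rfl | rfl <;> rcases hs2 with rfl | rfl <;>
  rcases he1 with rfl | rfl <;> rcases he2 with rfl | rfl <;>
  first | (exact absurd hnw (by decide)) | (exact absurd hws (by decide)) |
    (exact absurd hne (by decide)) | (exact absurd hes (by decide)) |
    (exact absurd h1 (by decide)) | (exact absurd h2 (by decide)) | decide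

section

variable {H L : ℤ → ℕ → Prop}

open Classical in
/-- `1` above `X` and `0` below -/
noncomputable def ab (n : ℕ) (i : ℤ → ℕ) (X : ℤ → ℕ → Prop) (p : ℤ × ℕ) : ℤ :=
  if Below n i X p then 0 else 1

theorem ab_zero_or (p : ℤ × ℕ) : ab n i X p = 0 ∨ ab n i X p = 1 := by
  unfold ab; split_ifs <;> simp

theorem ab_of_below {p : ℤ × ℕ} (h : Below n i X p) : ab n i X p = 0 := if_pos h

theorem ab_of_not {p : ℤ × ℕ} (h : ¬ Below n i X p) : ab n i X p = 1 := if_neg h

theorem ab_congr {p q : ℤ × ℕ} (hs : Step n i X (fun _ => True) p q) :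
    ab n i X p = ab n i X q := by
  by_cases h : Below n i X p
  · rw [ab_of_below h, ab_of_below ((Below.congr hs).mp h)]
  · rw [ab_of_not h, ab_of_not fun h' => h ((Below.congr hs).mpr h')]

/-- The height function. -/
noncomputable def ht (n : ℕ) (i : ℤ → ℕ) (H L : ℤ → ℕ → Prop) (p : ℤ × ℕ) : ℤ :=
  ∑ k ∈ Finset.range p.2, rot (ab n i H (p.1, k)) (ab n i L (p.1, k))
    (ab n i H (p.1, k + 1)) (ab n i L (p.1, k + 1))

theorem ht_succ (τ : ℤ) (k : ℕ) : ht n i H L (τ, k + 1) = ht n i H L (τ, k) +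
    rot (ab n i H (τ, k)) (ab n i L (τ, k)) (ab n i H (τ, k + 1)) (ab n i L (τ, k + 1)) := by
  unfold ht
  rw [Finset.sum_range_succ]

variable (hi : ∀ τ, i τ + 2 ≤ n) (hd : ∀ τ k, k < n → ¬ (H τ k ∧ L τ k))
  (hx : ∀ τ, ¬ (H τ (i τ) ∧ L τ (i τ + 1) ∧ H (τ + 1) (i τ + 1) ∧ L (τ + 1) (i τ)))
  (hy : ∀ τ, ¬ (L τ (i τ) ∧ H τ (i τ + 1) ∧ L (τ + 1) (i τ + 1) ∧ H (τ + 1) (i τ)))

include hi hd hx hy in
theorem ht_right (τ : ℤ) : ∀ g, g ≤ n → g ≠ i τ + 1 → ht n i H L (τ + 1, g) = ht n i H L (τ, g) := by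
  have hz : ∀ (X : ℤ → ℕ → Prop) g, g ≠ i τ + 1 → ab n i X (τ, g) = ab n i X (τ + 1, g) :=
    fun X g hg => ab_congr (.right hg trivial trivial)
  have hv : ∀ (X : ℤ → ℕ → Prop) σ k, k < n → ab n i X (σ, k) = ab n i X (σ, k + 1) ∨ X σ k := by
    intro X σ k hk
    by_cases h : X σ k
    · exact Or.inr h
    · exact Or.inl (ab_congr (.down hk h trivial))
  have hone : ∀ σ k, k < n → ab n i H (σ, k) = ab n i H (σ, k + 1) ∨
      ab n i L (σ, k) = ab n i L (σ, k + 1) := by
    intro σ k hk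
    rcases hv H σ k hk with h | h
    · exact Or.inl h
    · rcases hv L σ k hk with h' | h'
      · exact Or.inr h'
      · exact absurd ⟨h, h'⟩ (hd σ k hk)
  have hin := hi τ
  intro g
  induction g using Nat.strong_induction_on with
  | _ g ih =>
    intro hg hgi
    rcases g with _ | g
    · rfl
    by_cases h1 : g = i τ + 1
    · subst h1
      have h2 := ih (i τ) (by omega) (by omega) (by omega)
      rw [ht_succ (τ + 1) (i τ + 1), ht_succ (τ + 1) (i τ), ht_succ τ (i τ + 1),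
        ht_succ τ (i τ), h2]
      have e1 := hz H (i τ) (by omega)
      have e2 := hz L (i τ) (by omega)
      have e3 := hz H (i τ + 1 + 1) (by omega)
      have e4 := hz L (i τ + 1 + 1) (by omega)
      have hn : i τ < n := by omega
      have hn' : i τ + 1 < n := by omega
      have key := face (ab n i H (τ, i τ)) (ab n i L (τ, i τ)) (ab n i H (τ, i τ + 1))
        (ab n i L (τ, i τ + 1)) (ab n i H (τ, i τ + 1 + 1)) (ab n i L (τ, i τ + 1 + 1))
        (ab n i H (τ + 1, i τ + 1)) (ab n i L (τ + 1, i τ + 1))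
        (ab_zero_or _) (ab_zero_or _) (ab_zero_or _) (ab_zero_or _)
        (ab_zero_or _) (ab_zero_or _) (ab_zero_or _) (ab_zero_or _) (hone _ _ hn) (hone _ _ hn')
        (by rw [e1, e2]; exact hone _ _ hn) (by rw [e3, e4]; exact hone _ _ hn') ?_ ?_
      · rw [← e1, ← e2, ← e3, ← e4]
        linarith
      · rcases hv H τ (i τ) hn with h | h
        · exact Or.inl h
        rcases hv L τ (i τ + 1) hn' with h' | h'
        · exact Or.inr (Or.inl h')
        rcases hv H (τ + 1) (i τ + 1) hn' with h'' | h''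
        · exact Or.inr (Or.inr (Or.inl (by rw [e3]; exact h'')))
        rcases hv L (τ + 1) (i τ) hn with h''' | h'''
        · exact Or.inr (Or.inr (Or.inr (by rw [e2]; exact h''')))
        · exact absurd ⟨h, h', h'', h'''⟩ (hx τ)
      · rcases hv L τ (i τ) hn with h | h
        · exact Or.inl h
        rcases hv H τ (i τ + 1) hn' with h' | h'
        · exact Or.inr (Or.inl h')
        rcases hv L (τ + 1) (i τ + 1) hn' with h'' | h''
        · exact Or.inr (Or.inr (Or.inl (by rw [e4]; exact h'')))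
        rcases hv H (τ + 1) (i τ) hn with h''' | h'''
        · exact Or.inr (Or.inr (Or.inr (by rw [e1]; exact h''')))
        · exact absurd ⟨h, h', h'', h'''⟩ (hy τ)
    · rw [ht_succ (τ + 1) g, ht_succ τ g]
      by_cases h2 : g + 1 = i τ + 1
      · exact absurd h2 hgi
      rw [ih g (by omega) (by omega) h1, hz H g h1, hz L g h1, hz H (g + 1) hgi, hz L (g + 1) hgi]

include hi hd hx hy in
theorem ht_step {p q : ℤ × ℕ} (hq : p.2 ≤ n) (hs : Step n i (fun _ _ => False) (fun _ => True) p q) :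
    ht n i H L q = ht n i H L p + rot (ab n i H p) (ab n i L p) (ab n i H q) (ab n i L q) := by
  have hone : ∀ σ k, k < n → ab n i H (σ, k) = ab n i H (σ, k + 1) ∨
      ab n i L (σ, k) = ab n i L (σ, k + 1) := by
    intro σ k hk
    by_cases h : H σ k
    · right
      exact ab_congr (.down hk (fun h' => hd σ k hk ⟨h, h'⟩) trivial)
    · left
      exact ab_congr (.down hk h trivial)
  cases hs with
  | @down τ k a b _ => exact ht_succ τ k
  | @up τ k a b _ =>
    rw [ht_succ τ k, add_assoc]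
    rcases hone τ k a with h | h
    · rw [h]; unfold rot; ring_nf
    · rw [h]; unfold rot; ring_nf
  | @right τ g a _ _ =>
    have e1 : ab n i H (τ, g) = ab n i H (τ + 1, g) := ab_congr (.right a trivial trivial)
    have e2 : ab n i L (τ, g) = ab n i L (τ + 1, g) := ab_congr (.right a trivial trivial)
    rw [ht_right hi hd hx hy τ g hq a, e1, e2]
    unfold rot; ring
  | @left τ g a _ _ =>
    have e1 : ab n i H (τ, g) = ab n i H (τ + 1, g) := ab_congr (.right a trivial trivial)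
    have e2 : ab n i L (τ, g) = ab n i L (τ + 1, g) := ab_congr (.right a trivial trivial)
    rw [ht_right hi hd hx hy τ g hq a, e1, e2]
    unfold rot; ring

include hi in
theorem ht_bottom (hd : ∀ τ k, k < n → ¬ (H τ k ∧ L τ k))
    (hx : ∀ τ, ¬ (H τ (i τ) ∧ L τ (i τ + 1) ∧ H (τ + 1) (i τ + 1) ∧ L (τ + 1) (i τ)))
    (hy : ∀ τ, ¬ (L τ (i τ) ∧ H τ (i τ + 1) ∧ L (τ + 1) (i τ + 1) ∧ H (τ + 1) (i τ)))
    (τ : ℤ) : ht n i H L (τ, n) = ht n i H L (0, n) := by
  have h1 : ∀ τ, ht n i H L (τ + 1, n) = ht n i H L (τ, n) := fun τ =>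
    ht_right hi hd hx hy τ n le_rfl (by have := hi τ; omega)
  induction τ using Int.induction_on with
  | zero => rfl
  | succ k ih => rw [h1, ih]
  | pred k ih =>
    have := h1 (-(k : ℤ) - 1)
    rw [sub_add_cancel] at this
    rw [← this, ih]

include hi hd hx hy in
/-- The two separating sets are nested. -/
theorem nested (hbH : ∀ τ, ¬ U n i H (τ, n)) (hbL : ∀ τ, ¬ U n i L (τ, n)) :
    (∀ τ g, g ≤ n → Below n i H (τ, g) → Below n i L (τ, g)) ∨
      (∀ τ g, g ≤ n → Below n i L (τ, g) → Below n i H (τ, g)) := by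
  by_contra hcon
  rw [not_or] at hcon
  obtain ⟨h1, h2⟩ := hcon
  push Not at h1 h2
  obtain ⟨τ, g, hg, h3, h4⟩ := h1
  obtain ⟨τ', g', hg', h5, h6⟩ := h2
  have bot : ∀ (X : ℤ → ℕ → Prop), (∀ τ, ¬ U n i X (τ, n)) → ∀ τ, Below n i X (τ, n) :=
    fun X h τ => ⟨h τ, τ, .refl⟩
  have hle : ∀ {p q : ℤ × ℕ}, Step n i (fun _ _ => False) (fun _ => True) p q → p.2 ≤ n →
      q.2 ≤ n := by
    intro p q hs hp
    cases hs with
    | down a b c => exact a
    | up a b c => exact a.le
    | right a b c => exact hp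
    | left a b c => exact hp
  -- above `H`
  have a1 : ∀ g, g ≤ n → ∀ τ, ¬ Below n i H (τ, g) →
      (g ≤ n ∧ ht n i H L (τ, g) = 1 - ab n i L (τ, g)) := by
    refine above_induction (Q := fun p => p.2 ≤ n ∧ ht n i H L p = 1 - ab n i L p)
      (fun τ => ⟨Nat.zero_le _, ?_⟩) (fun p q hs hp hq h => ⟨hle hs h.1, ?_⟩)
    · rw [ab_of_not (not_below_top τ)]; rfl
    · rw [ht_step hi hd hx hy h.1 hs, h.2, ab_of_not hp, ab_of_not hq]
      unfold rot; ring
  -- above `L`
  have a2 : ∀ g, g ≤ n → ∀ τ, ¬ Below n i L (τ, g) →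
      (g ≤ n ∧ ht n i H L (τ, g) = ab n i H (τ, g) - 1) := by
    refine above_induction (Q := fun p => p.2 ≤ n ∧ ht n i H L p = ab n i H p - 1)
      (fun τ => ⟨Nat.zero_le _, ?_⟩) (fun p q hs hp hq h => ⟨hle hs h.1, ?_⟩)
    · rw [ab_of_not (not_below_top τ)]; rfl
    · rw [ht_step hi hd hx hy h.1 hs, h.2, ab_of_not hp, ab_of_not hq]
      unfold rot; ring
  -- below `H`
  have a3 : ∀ p, Below n i H p → (p.2 ≤ n ∧ ht n i H L p = ht n i H L (0, n) + ab n i L p) := by
    intro p hp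
    refine Below.induction (Q := fun p => p.2 ≤ n ∧ ht n i H L p = ht n i H L (0, n) + ab n i L p)
      (fun τ _ => ⟨le_rfl, ?_⟩) (fun p q hs hp hq h => ⟨hle hs.symm h.1, ?_⟩) hp
    · rw [ht_bottom hi hd hx hy, ab_of_below (bot L hbL τ), add_zero]
    · rw [ht_step hi hd hx hy h.1 hs.symm, h.2, ab_of_below hp, ab_of_below hq]
      unfold rot; ring
  -- below `L`
  have a4 : ∀ p, Below n i L p → (p.2 ≤ n ∧ ht n i H L p = ht n i H L (0, n) - ab n i H p) := by
    intro p hp
    refine Below.induction (Q := fun p => p.2 ≤ n ∧ ht n i H L p = ht n i H L (0, n) - ab n i H p)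
      (fun τ _ => ⟨le_rfl, ?_⟩) (fun p q hs hp hq h => ⟨hle hs.symm h.1, ?_⟩) hp
    · rw [ht_bottom hi hd hx hy, ab_of_below (bot H hbH τ), sub_zero]
    · rw [ht_step hi hd hx hy h.1 hs.symm, h.2, ab_of_below hp, ab_of_below hq]
      unfold rot; ring
  have b1 := (a2 g hg τ h4).2
  have b2 := (a3 _ h3).2
  rw [ab_of_below h3] at b1
  rw [ab_of_not h4] at b2
  have b3 := (a1 g' hg' τ' h6).2
  have b4 := (a4 _ h5).2
  rw [ab_of_below h5] at b3
  rw [ab_of_not h6] at b4
  omega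

end

/-- A separating set is not disjoint from its translate. -/
theorem no_translate {H L : ℤ → ℕ → Prop} {N : ℤ} (hi : ∀ τ, i τ + 2 ≤ n)
    (hd : ∀ τ k, k < n → ¬ (H τ k ∧ L τ k))
    (hx : ∀ τ, ¬ (H τ (i τ) ∧ L τ (i τ + 1) ∧ H (τ + 1) (i τ + 1) ∧ L (τ + 1) (i τ)))
    (hy : ∀ τ, ¬ (L τ (i τ) ∧ H τ (i τ + 1) ∧ L (τ + 1) (i τ + 1) ∧ H (τ + 1) (i τ)))
    (hper : ∀ τ, i (τ + N) = i τ) (hsh : ∀ τ k, L τ k ↔ H (τ + N) k)
    (hbH : ∀ τ, ¬ U n i H (τ, n)) : False := by
  classical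
  have hbL : ∀ τ, ¬ U n i L (τ, n) := fun τ h => hbH _ (h.shift hsh hper)
  have hB : ∀ τ g, Below n i L (τ, g) ↔ Below n i H (τ + N, g) := fun τ g =>
    below_shift_iff hsh hper (τ, g)
  have bot : ∀ (X : ℤ → ℕ → Prop), (∀ τ, ¬ U n i X (τ, n)) → ∀ τ, Below n i X (τ, n) :=
    fun X h τ => ⟨h τ, τ, .refl⟩
  let a : ℤ → ℕ := fun τ => ((Finset.range (n + 1)).filter fun g => ¬ Below n i H (τ, g)).card
  have ha : ∀ τ, a (τ + N) = ((Finset.range (n + 1)).filter fun g => ¬ Below n i L (τ, g)).card := by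
    intro τ
    refine congrArg Finset.card (Finset.filter_congr fun g _ => ?_)
    rw [hB]
  -- the frontier
  have fr : ∀ (X : ℤ → ℕ → Prop), (∀ τ, ¬ U n i X (τ, n)) → ∀ τ, ∃ k, k < n ∧
      ¬ Below n i X (τ, k) ∧ Below n i X (τ, k + 1) ∧ X τ k := by
    intro X hX τ
    have h1 : ∃ g, Below n i X (τ, g) := ⟨n, bot X hX τ⟩
    have h2 := Nat.find_spec h1
    have h3 : Nat.find h1 ≤ n := Nat.find_min' h1 (bot X hX τ)
    have h4 : Nat.find h1 ≠ 0 := fun h => by
      rw [h] at h2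
      exact not_below_top τ h2
    obtain ⟨k, hk⟩ := Nat.exists_eq_succ_of_ne_zero h4
    have h5 : ¬ Below n i X (τ, k) := Nat.find_min h1 (by omega)
    rw [hk] at h2 h3
    refine ⟨k, h3, h5, h2, ?_⟩
    by_contra hcon
    exact h5 ((Below.congr (.down h3 hcon trivial)).mpr h2)
  rcases nested hi hd hx hy hbH hbL with h | h
  · -- below `H` implies below `L`
    have hlt : ∀ τ, a (τ + N) < a τ := by
      intro τ
      rw [ha]
      refine Finset.card_lt_card ?_
      rw [Finset.ssubset_iff_of_subset]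
      · obtain ⟨k, hk, h1, h2, h3⟩ := fr L hbL τ
        have h4 : ¬ Below n i H (τ, k) := fun h' => h1 (h τ k hk.le h')
        have h5 : ¬ Below n i H (τ, k + 1) := fun h' =>
          h4 ((Below.congr (.down hk (fun h6 => hd τ k hk ⟨h6, h3⟩) trivial)).mpr h')
        refine ⟨k + 1, ?_, ?_⟩
        · simp only [Finset.mem_filter, Finset.mem_range]
          exact ⟨by omega, h5⟩
        · simp only [Finset.mem_filter, Finset.mem_range, not_and, not_not]
          exact fun _ => h2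
      · intro g hg
        simp only [Finset.mem_filter, Finset.mem_range] at hg ⊢
        exact ⟨hg.1, fun h' => hg.2 (h τ g (by omega) h')⟩
    have : ∀ k : ℕ, a (k * N) + k ≤ a 0 := by
      intro k
      induction k with
      | zero => simp
      | succ k ih =>
        have h1 := hlt (k * N)
        have e : ((k + 1 : ℕ) : ℤ) * N = k * N + N := by push_cast; ring
        rw [e]
        omega
    have h1 := this (a 0 + 1)
    omega
  · have hlt : ∀ τ, a τ < a (τ + N) := by
      intro τ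
      rw [ha]
      refine Finset.card_lt_card ?_
      rw [Finset.ssubset_iff_of_subset]
      · obtain ⟨k, hk, h1, h2, h3⟩ := fr H hbH τ
        have h4 : ¬ Below n i L (τ, k) := fun h' => h1 (h τ k hk.le h')
        have h5 : ¬ Below n i L (τ, k + 1) := fun h' =>
          h4 ((Below.congr (.down hk (fun h6 => hd τ k hk ⟨h3, h6⟩) trivial)).mpr h')
        refine ⟨k + 1, ?_, ?_⟩
        · simp only [Finset.mem_filter, Finset.mem_range]
          exact ⟨by omega, h5⟩
        · simp only [Finset.mem_filter, Finset.mem_range, not_and, not_not]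
          exact fun _ => h2
      · intro g hg
        simp only [Finset.mem_filter, Finset.mem_range] at hg ⊢
        exact ⟨hg.1, fun h' => hg.2 (h τ g (by omega) h')⟩
    have : ∀ k : ℕ, a (-(k * N)) + k ≤ a 0 := by
      intro k
      induction k with
      | zero => simp
      | succ k ih =>
        have h1 := hlt (-((k + 1 : ℕ) * N))
        have e : -(((k + 1 : ℕ) : ℤ) * N) + N = -(k * N) := by push_cast; ring
        rw [e] at h1
        omega
    have h1 := this (a 0 + 1)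
    omega

end Pool.Agent.Helper50.BA
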