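import Pool.Agent.Helper50.BA.Trap
import Pool.Agent.Helper50.BA.Nest

set_option autoImplicit false

/-!
# No strand has a high value

Let the strands of a periodic alternating braid diagram carry values in a linear order such that the
strands with low values are the translates of the strands with high values. If high and low values
are different then there are no high values.
-/

namespace Pool.Agent.Helper50.BA

open Relation Filter

variable {n : ℕ} {i : ℤ → ℕ}

/-- A set `H` that separates in a part `P` of the diagram which contains arbitrarily large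
pieces. -/
theorem limit {H L : ℤ → ℕ → Prop} {N : ℤ} (hi : ∀ τ, i τ + 2 ≤ n)
    (hd : ∀ τ k, k < n → ¬ (H τ k ∧ L τ k))
    (hx : ∀ τ, ¬ (H τ (i τ) ∧ L τ (i τ + 1) ∧ H (τ + 1) (i τ + 1) ∧ L (τ + 1) (i τ)))
    (hy : ∀ τ, ¬ (L τ (i τ) ∧ H τ (i τ + 1) ∧ L (τ + 1) (i τ + 1) ∧ H (τ + 1) (i τ)))
    (hper : ∀ τ, i (τ + N) = i τ) (hsh : ∀ τ k, L τ k ↔ H (τ + N) k)
    {P : ℤ → Prop} (hb : ∀ τ, ¬ Reach n i H P (τ, n)) (f : ℕ → ℤ)
    (hf : ∀ j τ, i (τ + f j) = i τ) (hP : ∀ τ, ∀ᶠ j in atTop, P (τ + f j)) : False := by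
  have hle : ∀ {p : ℕ → Prop}, (∀ᶠ j in atTop, p j) → ∀ᶠ j in (hyperfilter ℕ : Filter ℕ), p j := by
    intro p h
    have : (hyperfilter ℕ : Filter ℕ) ≤ atTop := by
      rw [← Nat.cofinite_eq_atTop]
      exact hyperfilter_le_cofinite
    exact this h
  refine no_translate (H := fun τ k => ∀ᶠ j in (hyperfilter ℕ : Filter ℕ), H (τ + f j) k)
    (L := fun τ k => ∀ᶠ j in (hyperfilter ℕ : Filter ℕ), L (τ + f j) k) (N := N) hi
    (fun τ k hk h => ?_) (fun τ h => ?_) (fun τ h => ?_) hper (fun τ k => ?_) (fun τ h => ?_)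
  · obtain ⟨j, hj⟩ := (h.1.and h.2).exists
    exact hd _ k hk hj
  · obtain ⟨j, h1, h2, h3, h4⟩ := (h.1.and (h.2.1.and (h.2.2.1.and h.2.2.2))).exists
    refine hx (τ + f j) ?_
    rw [hf]
    rw [add_right_comm] at h3 h4
    exact ⟨h1, h2, h3, h4⟩
  · obtain ⟨j, h1, h2, h3, h4⟩ := (h.1.and (h.2.1.and (h.2.2.1.and h.2.2.2))).exists
    refine hy (τ + f j) ?_
    rw [hf]
    rw [add_right_comm] at h3 h4
    exact ⟨h1, h2, h3, h4⟩
  · refine eventually_congr (Eventually.of_forall fun j => ?_)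
    rw [hsh, add_right_comm]
  · obtain ⟨τ₀, -, h⟩ := h
    have key : ∀ p, ReflTransGen (Step n i
        (fun τ k => ∀ᶠ j in (hyperfilter ℕ : Filter ℕ), H (τ + f j) k) (fun _ => True)) (τ₀, 0) p →
        ∀ᶠ j in (hyperfilter ℕ : Filter ℕ), Reach n i H P (p.1 + f j, p.2) := by
      intro p hp
      induction hp with
      | refl =>
        filter_upwards [hle (hP τ₀)] with j hj
        exact ⟨τ₀ + f j, hj, .refl⟩
      | @tail b c _ hbc ih =>
        have step : (∀ᶠ j in (hyperfilter ℕ : Filter ℕ),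
            Step n i H P (b.1 + f j, b.2) (c.1 + f j, c.2)) := by
          cases hbc with
          | @down σ k h1 h2 _ =>
            have h3 := Ultrafilter.eventually_not.mpr h2
            filter_upwards [h3, hle (hP σ)] with j h4 h5
            exact .down h1 h4 h5
          | @up σ k h1 h2 _ =>
            have h3 := Ultrafilter.eventually_not.mpr h2
            filter_upwards [h3, hle (hP σ)] with j h4 h5
            exact .up h1 h4 h5
          | @right σ g h1 _ _ =>
            filter_upwards [hle (hP σ), hle (hP (σ + 1))] with j h4 h5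
            have e : σ + 1 + f j = σ + f j + 1 := add_right_comm _ _ _
            rw [e] at h5
            show Step n i H P (σ + f j, g) (σ + 1 + f j, g)
            rw [e]
            exact .right (by rw [hf]; exact h1) h4 h5
          | @left σ g h1 _ _ =>
            filter_upwards [hle (hP σ), hle (hP (σ + 1))] with j h4 h5
            have e : σ + 1 + f j = σ + f j + 1 := add_right_comm _ _ _
            rw [e] at h5
            show Step n i H P (σ + 1 + f j, g) (σ + f j, g)
            rw [e]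
            exact .left (by rw [hf]; exact h1) h4 h5
        filter_upwards [ih, step] with j h1 h2
        obtain ⟨σ, h3, h4⟩ := h1
        exact ⟨σ, h3, h4.tail h2⟩
    obtain ⟨j, hj⟩ := (key _ h).exists
    exact hb _ hj

theorem noHigh {A : Type*} [LinearOrder A] {δ : ℕ → Bool} {v : ℤ → ℕ → A} (D : Diag n i δ v)
    {H L : ℤ → ℕ → Prop} (hH : ∀ τ k τ' k', k' < n → H τ k → v τ k ≤ v τ' k' → H τ' k')
    (hd : ∀ τ k, ¬ (H τ k ∧ L τ k)) {N : ℤ} (hN : 0 < N) (hper : ∀ τ, i (τ + N) = i τ)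
    (hsh : ∀ τ k, L τ k ↔ H (τ + N) k) (τ : ℤ) (k : ℕ) (hk : k < n) : ¬ H τ k := by
  intro h
  have hlt : ∀ τ k τ' k', H τ k → L τ' k' → k' < n → v τ' k' < v τ k := by
    intro τ k τ' k' h1 h2 hk'
    by_contra hcon
    exact hd τ' k' ⟨hH _ _ _ _ hk' h1 (not_lt.mp hcon), h2⟩
  have hx : ∀ τ, ¬ (H τ (i τ) ∧ L τ (i τ + 1) ∧ H (τ + 1) (i τ + 1) ∧ L (τ + 1) (i τ)) := by
    rintro τ ⟨h1, h2, h3, h4⟩
    have hn := D.hi τ
    have e1 := hlt _ _ _ _ h1 h2 (by omega)
    have e2 := hlt _ _ _ _ h3 h4 (by omega)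
    rcases D.move τ with h | h | h | h | h
    · exact e1.ne h.1.symm
    · exact absurd e1 (not_lt.mpr h.2.1.le)
    · exact absurd e2 (not_lt.mpr h.2.2.1.le)
    · exact absurd e1 (not_lt.mpr h.2.1.le)
    · exact absurd e2 (not_lt.mpr h.2.2.1.le)
  have hy : ∀ τ, ¬ (L τ (i τ) ∧ H τ (i τ + 1) ∧ L (τ + 1) (i τ + 1) ∧ H (τ + 1) (i τ)) := by
    rintro τ ⟨h1, h2, h3, h4⟩
    have hn := D.hi τ
    have e1 := hlt _ _ _ _ h2 h1 (by omega)
    have e2 := hlt _ _ _ _ h4 h3 (by omega)
    rcases D.move τ with h | h | h | h | h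
    · exact e1.ne h.1
    · exact absurd e2 (not_lt.mpr h.2.2.1.le)
    · exact absurd e1 (not_lt.mpr h.2.1.le)
    · exact absurd e2 (not_lt.mpr h.2.2.1.le)
    · exact absurd e1 (not_lt.mpr h.2.1.le)
  have hpj : ∀ (j : ℕ) (τ : ℤ), i (τ + j * N) = i τ := by
    intro j
    induction j with
    | zero => intro τ; simp
    | succ j ih =>
      intro τ
      have e : τ + ((j + 1 : ℕ) : ℤ) * N = (τ + j * N) + N := by push_cast; ring
      rw [e, hper, ih]
  have hmj : ∀ (j : ℕ) (τ : ℤ), i (τ + -(j * N)) = i τ := by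
    intro j τ
    rw [← hpj j (τ + -(j * N)), neg_add_cancel_right]
  by_cases hr : ∀ lo : ℤ, ∃ τ, Reach n i H (fun σ => lo ≤ σ) (τ, n)
  · by_cases hl : ∀ hi' : ℤ, ∃ τ, Reach n i H (fun σ => σ ≤ hi') (τ, n)
    · exact trap D hH hk h (hr _) (hl _)
    · push Not at hl
      obtain ⟨b, hb⟩ := hl
      refine limit D.hi (fun τ k _ => hd τ k) hx hy hper hsh hb (fun j => -(j * N)) hmj
        (fun τ => ?_)
      filter_upwards [eventually_ge_atTop (τ - b).toNat] with j hj
      have h1 : τ - b ≤ j := by omega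
      nlinarith
  · push Not at hr
    obtain ⟨b, hb⟩ := hr
    refine limit D.hi (fun τ k _ => hd τ k) hx hy hper hsh hb (fun j => j * N) hpj
      (fun τ => ?_)
    filter_upwards [eventually_ge_atTop (b - τ).toNat] with j hj
    have h1 : b - τ ≤ j := by omega
    nlinarith

end Pool.Agent.Helper50.BA
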