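import Pool.Agent.Helper50.BA.Ord

set_option autoImplicit false

/-!
# The strands of a periodic alternating braid diagram

`x τ k` is the generator of the strand `k` at time `τ` in the orbifold group; `m` is the meridian of
the axis, which conjugates the strands at time `τ + N` to those at time `τ`.
-/

namespace Pool.Agent.Helper50.BA

variable {G H : Type*} [Group G] [Group H]

structure Strands (d : G →* ℤˣ) (m : G) (n : ℕ) (N : ℤ) (i : ℤ → ℕ) (δ : ℕ → Bool)
    (x : ℤ → ℕ → G) : Prop where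
  hN : 0 < N
  hi : ∀ τ, i τ + 2 ≤ n
  hδ : ∀ k, δ (k + 1) = !δ k
  per : ∀ τ, i (τ + N) = i τ
  dm : d m = -1
  dx : ∀ τ k, k < n → d (x τ k) = -1
  sq : ∀ τ k, k < n → x τ k * x τ k = 1
  stay : ∀ τ k, k < n → k ≠ i τ → k ≠ i τ + 1 → x (τ + 1) k = x τ k
  prod : ∀ τ, x (τ + 1) (i τ) * x (τ + 1) (i τ + 1) = x τ (i τ) * x τ (i τ + 1)
  pow : ∀ τ, ∃ p q : ℕ, 1 ≤ q ∧ (x (τ + 1) (i τ) * x τ (i τ)) ^ q =
    if δ (i τ) then (x τ (i τ + 1) * x τ (i τ)) ^ p else (x τ (i τ) * x τ (i τ + 1)) ^ p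
  shift : ∀ τ k, k < n → x (τ + N) k = m⁻¹ * x τ k * m

variable [LinearOrder H]

namespace Strands

variable {d : G →* ℤˣ} {m : G} {n : ℕ} {N : ℤ} {i : ℤ → ℕ} {δ : ℕ → Bool} {x : ℤ → ℕ → G}
  (S : Strands d m n N i δ x) (φ : d.ker →* H) (hinv : ∀ a b c : H, a ≤ b ↔ c * a ≤ c * b)

include S

theorem dm' : d m⁻¹ = -1 := by rw [map_inv, S.dm]; decide

theorem dxs (s : G) (τ : ℤ) {k : ℕ} (hk : k < n) : d (x τ k * s) = d (m⁻¹ * s) := by
  rw [map_mul, map_mul, S.dx τ k hk, S.dm']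

include hinv

theorem diag (s : G) : Diag n i δ (fun τ k => ph φ ((m⁻¹ * s)⁻¹ * (x τ k * s))) where
  hi := S.hi
  hδ := S.hδ
  stay τ k h1 h2 h3 := by rw [S.stay τ k h1 h2 h3]
  move τ := by
    have h := S.hi τ
    have h1 : i τ < n := by omega
    have h2 : i τ + 1 < n := by omega
    obtain ⟨p, q, hq, hpq⟩ := S.pow τ
    exact move_of_tangle hinv (S.sq τ _ h1) (S.sq τ _ h2) (S.sq _ _ h1) (S.sq _ _ h2)
      (S.dx _ _ h1) (S.dx _ _ h2) (S.dx _ _ h1) (S.dx _ _ h2) (S.dxs s τ h1) (S.prod τ) hq _ hpq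

theorem no_value (s : G) (A B : H → Prop) (hA : ∀ a b, A a → a ≤ b → A b)
    (hAB : ∀ a, ¬ (A a ∧ B a))
    (hsh : ∀ τ k, k < n → (B (ph φ ((m⁻¹ * s)⁻¹ * (x τ k * s))) ↔
      A (ph φ ((m⁻¹ * s)⁻¹ * (x (τ + N) k * s))))) (τ : ℤ) (k : ℕ) (hk : k < n) :
    ¬ A (ph φ ((m⁻¹ * s)⁻¹ * (x τ k * s))) := by
  intro h
  refine noHigh (S.diag φ hinv s) (H := fun τ k => k < n ∧ A (ph φ ((m⁻¹ * s)⁻¹ * (x τ k * s))))
    (L := fun τ k => k < n ∧ B (ph φ ((m⁻¹ * s)⁻¹ * (x τ k * s)))) ?_ ?_ S.hN S.per ?_ τ k hk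
    ⟨hk, h⟩
  · exact fun τ k τ' k' h1 h2 h3 => ⟨h1, hA _ _ h2.2 h3⟩
  · exact fun τ k h => hAB _ ⟨h.1.2, h.2.2⟩
  · exact fun τ k => and_congr_right fun h => hsh τ k h

theorem shift_le (s : G) (τ : ℤ) {k : ℕ} (hk : k < n) :
    Le φ (m⁻¹ * s) (x (τ + N) k * s) ↔ Le φ (x τ k * s) (m * s) := by
  have e1 : x (τ + N) k * s = m⁻¹ * (x τ k * (m * s)) := by
    rw [S.shift τ k hk]; group
  rw [e1, mul_left_le, ← mul_left_le (x τ k), ← mul_assoc (x τ k) (x τ k), S.sq τ k hk, one_mul]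

theorem shift_lt (s : G) (τ : ℤ) {k : ℕ} (hk : k < n) :
    Lt φ (m⁻¹ * s) (x (τ + N) k * s) ↔ Lt φ (x τ k * s) (m * s) := by
  have e1 : x (τ + N) k * s = m⁻¹ * (x τ k * (m * s)) := by
    rw [S.shift τ k hk]; group
  rw [e1, mul_left_lt, ← mul_left_lt (x τ k), ← mul_assoc (x τ k) (x τ k), S.sq τ k hk, one_mul]

theorem not_high {s : G} (hs : Lt φ (m * s) (m⁻¹ * s)) (τ : ℤ) {k : ℕ} (hk : k < n) :
    ¬ Le φ (m⁻¹ * s) (x τ k * s) := by
  have dms : d (m * s) = d (m⁻¹ * s) := hs.1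
  intro h
  refine S.no_value φ hinv s (fun a => 1 ≤ a) (fun a => a ≤ ph φ ((m⁻¹ * s)⁻¹ * (m * s)))
    (fun a b h1 h2 => h1.trans h2) (fun a h => ?_) (fun τ k hk => ?_) τ k hk h.2
  · have h1 := (ph_lt_iff hinv (φ := φ) (r := m⁻¹ * s) dms rfl).mpr hs
    rw [inv_mul_cancel, ph_one] at h1
    exact absurd (h.1.trans h.2) (not_le.mpr h1)
  · rw [ph_le_iff hinv (S.dxs s τ hk) dms, ← S.shift_le φ hinv s τ hk]
    exact ⟨fun h => h.2, fun h => ⟨(S.dxs s _ hk).symm, h⟩⟩

/-- No strand moves a point farther than the axis does. -/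
theorem bound {s : G} (hs : Lt φ (m * s) (m⁻¹ * s)) (τ : ℤ) {k : ℕ} (hk : k < n) :
    Lt φ (x τ k * s) (m⁻¹ * s) ∧ Lt φ (m * s) (x τ k * s) := by
  have dms : d (m * s) = d (m⁻¹ * s) := hs.1
  constructor
  · rcases le_or_lt (φ := φ) hinv (S.dxs s τ hk).symm with h | h
    · exact absurd h (S.not_high φ hinv hs τ hk)
    · exact h
  · rcases le_or_lt (φ := φ) hinv ((S.dxs s τ hk).trans dms.symm) with h | h
    · exact absurd ((S.shift_le φ hinv s τ hk).mpr h) (S.not_high φ hinv hs _ hk)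
    · exact h

theorem eq_one (h0 : ph φ (m * m) = 1) (τ : ℤ) {k : ℕ} (hk : k < n) :
    ph φ (m * x τ k) = 1 := by
  have dmm : d (m * m) = 1 := by rw [map_mul, S.dm]; decide
  have e0 : ph φ ((m⁻¹ * 1)⁻¹ * (m * 1)) = 1 := by
    have : (m⁻¹ * 1)⁻¹ * (m * 1) = m * m := by group
    rw [this, h0]
  have dms : d (m * 1) = d (m⁻¹ * 1) := by rw [map_mul, map_mul, S.dm, S.dm']
  have key : ∀ τ k, k < n → ¬ (1 < ph φ ((m⁻¹ * 1)⁻¹ * (x τ k * 1))) := by
    intro τ k hk
    refine S.no_value φ hinv 1 (fun a => 1 < a) (fun a => a < 1)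
      (fun a b h1 h2 => h1.trans_le h2) (fun a h => lt_asymm h.1 h.2) (fun τ k hk => ?_) τ k hk
    have h1 := ph_lt_iff hinv (φ := φ) (r := m⁻¹ * 1) (S.dxs 1 τ hk) dms
    rw [e0] at h1
    rw [h1, ← S.shift_lt φ hinv 1 τ hk]
    exact ⟨fun h => h.2, fun h => ⟨(S.dxs 1 _ hk).symm, h⟩⟩
  have e1 : (m⁻¹ * 1)⁻¹ * (x τ k * 1) = m * x τ k := by group
  refine le_antisymm ?_ ?_
  · have := key τ k hk
    rw [e1] at this
    exact not_lt.mp this
  · by_contra hcon
    have h1 : Lt φ (x τ k * 1) (m * 1) := by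
      rw [← ph_lt_iff hinv (φ := φ) (r := m⁻¹ * 1) (S.dxs 1 τ hk) dms, e0, e1]
      exact not_le.mp hcon
    have h2 := (S.shift_lt φ hinv 1 τ hk).mpr h1
    exact key _ _ hk h2.2

theorem trivial_of_eq (hgen : Subgroup.closure (insert m {g | ∃ τ k, k < n ∧ g = x τ k}) = ⊤)
    (h0 : ph φ (m * m) = 1) (g : d.ker) : φ g = 1 := by
  have dmm : d (m * m) = 1 := by rw [map_mul, S.dm]; decide
  have dmx : ∀ τ k, k < n → d (m * x τ k) = 1 := by
    intro τ k hk; rw [map_mul, S.dm, S.dx τ k hk]; decide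
  have key : ∀ g : G, (d g = 1 → ph φ g = 1) ∧ (d g = -1 → ph φ (m * g) = 1) := by
    intro g
    have hg : g ∈ Subgroup.closure (insert m {g | ∃ τ k, k < n ∧ g = x τ k}) := by
      rw [hgen]; trivial
    induction hg using Subgroup.closure_induction_left with
    | one => exact ⟨fun _ => ph_one φ, fun h => absurd (h.symm.trans (map_one d)) (by decide)⟩
    | mul_left a ha y hy ih =>
      rcases ha with rfl | ⟨τ, k, hk, rfl⟩
      · constructor
        · intro h
          rw [map_mul, S.dm] at h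
          exact ih.2 (by rw [← h, neg_one_mul, neg_neg])
        · intro h
          rw [map_mul, S.dm, mul_eq_left] at h
          rw [← mul_assoc, ph_mul φ dmm h, h0, one_mul, ih.1 h]
      · constructor
        · intro h
          rw [map_mul, S.dx τ k hk] at h
          have hy' : d y = -1 := by
            have := congrArg (fun z => -1 * z) h
            simpa using this
          have e : x τ k * y = (m * x τ k)⁻¹ * (m * y) := by
            rw [mul_inv_rev, inv_eq_of_mul_eq_one_right (S.sq τ k hk)]; group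
          have d1 : d (m * x τ k)⁻¹ = 1 := by rw [map_inv, dmx τ k hk, inv_one]
          have d2 : d (m * y) = 1 := by rw [map_mul, S.dm, hy']; decide
          rw [e, ph_mul φ d1 d2, ph_inv φ (dmx τ k hk), S.eq_one φ hinv h0 τ hk, inv_one, one_mul,
            ih.2 hy']
        · intro h
          rw [map_mul, S.dx τ k hk, mul_eq_left] at h
          rw [← mul_assoc, ph_mul φ (dmx τ k hk) h, S.eq_one φ hinv h0 τ hk, one_mul, ih.1 h]
    | inv_mul_cancel a ha y hy ih =>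
      rcases ha with rfl | ⟨τ, k, hk, rfl⟩
      · constructor
        · intro h
          rw [map_mul, S.dm'] at h
          have hy' : d y = -1 := by
            have := congrArg (fun z => -1 * z) h
            simpa using this
          have e : a⁻¹ * y = (a * a)⁻¹ * (a * y) := by group
          have d1 : d (a * a)⁻¹ = 1 := by rw [map_inv, dmm, inv_one]
          have d2 : d (a * y) = 1 := by rw [map_mul, S.dm, hy']; decide
          rw [e, ph_mul φ d1 d2, ph_inv φ dmm, h0, inv_one, one_mul, ih.2 hy']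
        · intro h
          rw [map_mul, S.dm', mul_eq_left] at h
          rw [mul_inv_cancel_left, ih.1 h]
      · rw [inv_eq_of_mul_eq_one_right (S.sq τ k hk)]
        constructor
        · intro h
          rw [map_mul, S.dx τ k hk] at h
          have hy' : d y = -1 := by
            have := congrArg (fun z => -1 * z) h
            simpa using this
          have e : x τ k * y = (m * x τ k)⁻¹ * (m * y) := by
            rw [mul_inv_rev, inv_eq_of_mul_eq_one_right (S.sq τ k hk)]; group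
          have d1 : d (m * x τ k)⁻¹ = 1 := by rw [map_inv, dmx τ k hk, inv_one]
          have d2 : d (m * y) = 1 := by rw [map_mul, S.dm, hy']; decide
          rw [e, ph_mul φ d1 d2, ph_inv φ (dmx τ k hk), S.eq_one φ hinv h0 τ hk, inv_one, one_mul,
            ih.2 hy']
        · intro h
          rw [map_mul, S.dx τ k hk, mul_eq_left] at h
          rw [← mul_assoc, ph_mul φ (dmx τ k hk) h, S.eq_one φ hinv h0 τ hk, one_mul, ih.1 h]
  have h2 : d (g : G) = 1 := g.2
  have h1 := (key g.1).1 h2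
  unfold ph at h1
  rw [dif_pos h2] at h1
  exact h1

/-- The direction of the axis does not depend on the point. -/
theorem down_all (hgen : Subgroup.closure (insert m {g | ∃ τ k, k < n ∧ g = x τ k}) = ⊤)
    (h0 : Lt φ (m * 1) (m⁻¹ * 1)) (s : G) : Lt φ (m * s) (m⁻¹ * s) := by
  have hx : ∀ τ k, k < n → ∀ y, Lt φ (m * y) (m⁻¹ * y) → Lt φ (m * (x τ k * y)) (m⁻¹ * (x τ k * y)) := by
    intro τ k hk y h
    obtain ⟨h1, h2⟩ := S.bound φ hinv h τ hk
    rw [← mul_left_lt m, mul_inv_cancel_left] at h1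
    rw [← mul_left_lt m⁻¹, inv_mul_cancel_left] at h2
    exact h1.trans hinv h2
  have hs : s ∈ Subgroup.closure (insert m {g | ∃ τ k, k < n ∧ g = x τ k}) := by
    rw [hgen]; trivial
  induction hs using Subgroup.closure_induction_left with
  | one => exact h0
  | mul_left a ha y hy ih =>
    rcases ha with rfl | ⟨τ, k, hk, rfl⟩
    · rw [inv_mul_cancel_left, ← mul_left_lt a⁻¹, inv_mul_cancel_left]
      exact ih
    · exact hx τ k hk y ih
  | inv_mul_cancel a ha y hy ih =>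
    rcases ha with rfl | ⟨τ, k, hk, rfl⟩
    · rw [mul_inv_cancel_left, ← mul_left_lt a, mul_inv_cancel_left]
      exact ih
    · rw [inv_eq_of_mul_eq_one_right (S.sq τ k hk)]
      exact hx τ k hk y ih

end Strands

end Pool.Agent.Helper50.BA
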