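import Pool.Agent.Helper50.BA.High

set_option autoImplicit false

/-!
# Comparing the elements of a group through a homomorphism to a left-ordered group

`G` is a group with a homomorphism `d` to `±1`, and `φ` is a homomorphism from its kernel to a
left-ordered group `H`. Elements of `G` of the same degree are compared by the sign of
`φ (a⁻¹ b)`.
-/

namespace Pool.Agent.Helper50.BA

variable {G H : Type*} [Group G] [Group H] [LinearOrder H]

open Classical in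
/-- `φ`, extended by `1`. -/
noncomputable def ph {d : G →* ℤˣ} (φ : d.ker →* H) (g : G) : H :=
  if h : d g = 1 then φ ⟨g, h⟩ else 1

section

variable {d : G →* ℤˣ} (φ : d.ker →* H)

theorem ph_mul {g g' : G} (h : d g = 1) (h' : d g' = 1) : ph φ (g * g') = ph φ g * ph φ g' := by
  have h'' : d (g * g') = 1 := by rw [map_mul, h, h', one_mul]
  unfold ph
  rw [dif_pos h, dif_pos h', dif_pos h'', ← map_mul]
  rfl

theorem ph_one : ph φ 1 = 1 := by
  have h : d 1 = 1 := map_one d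
  have := ph_mul φ h h
  rw [mul_one] at this
  exact left_eq_mul.mp this

theorem ph_inv {g : G} (h : d g = 1) : ph φ g⁻¹ = (ph φ g)⁻¹ := by
  have h' : d g⁻¹ = 1 := by rw [map_inv, h, inv_one]
  have := ph_mul φ h h'
  rw [mul_inv_cancel, ph_one] at this
  exact (inv_eq_of_mul_eq_one_right this.symm).symm

theorem ph_pow {g : G} (h : d g = 1) (k : ℕ) : ph φ (g ^ k) = ph φ g ^ k := by
  induction k with
  | zero => rw [pow_zero, pow_zero, ph_one]
  | succ k ih =>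
    rw [pow_succ, pow_succ, ph_mul φ _ h, ih]
    rw [map_pow, h, one_pow]

/-- `a` is below `b` -/
def Lt (a b : G) : Prop := d a = d b ∧ 1 < ph φ (a⁻¹ * b)

/-- `a` is not above `b` -/
def Le (a b : G) : Prop := d a = d b ∧ 1 ≤ ph φ (a⁻¹ * b)

variable {φ}

theorem d_inv_mul {a b : G} (h : d a = d b) : d (a⁻¹ * b) = 1 := by
  rw [map_mul, map_inv, h, inv_mul_cancel]

theorem mul_left_lt (c : G) {a b : G} : Lt φ (c * a) (c * b) ↔ Lt φ a b := by
  unfold Lt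
  rw [map_mul, map_mul, mul_right_inj, mul_inv_rev, mul_assoc, inv_mul_cancel_left]

theorem mul_left_le (c : G) {a b : G} : Le φ (c * a) (c * b) ↔ Le φ a b := by
  unfold Le
  rw [map_mul, map_mul, mul_right_inj, mul_inv_rev, mul_assoc, inv_mul_cancel_left]

theorem Lt.le {a b : G} (h : Lt φ a b) : Le φ a b := ⟨h.1, h.2.le⟩

theorem Le.refl (a : G) : Le φ a a := ⟨rfl, by rw [inv_mul_cancel, ph_one]⟩

theorem Lt.irrefl {a : G} (h : Lt φ a a) : False := by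
  have := h.2
  rw [inv_mul_cancel, ph_one] at this
  exact this.false

variable (hinv : ∀ a b c : H, a ≤ b ↔ c * a ≤ c * b)

include hinv

theorem lt_iff_mul (a b c : H) : a < b ↔ c * a < c * b := by
  rw [← not_le, ← not_le, hinv b a c]

theorem one_le_mul' {a b : H} (ha : 1 ≤ a) (hb : 1 ≤ b) : 1 ≤ a * b := by
  have := (hinv 1 b a).mp hb
  rw [mul_one] at this
  exact ha.trans this

theorem one_lt_mul_left {a b : H} (ha : 1 < a) (hb : 1 ≤ b) : 1 < a * b := by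
  have := (hinv 1 b a).mp hb
  rw [mul_one] at this
  exact ha.trans_le this

theorem one_lt_mul_right {a b : H} (ha : 1 ≤ a) (hb : 1 < b) : 1 < a * b := by
  have := (lt_iff_mul hinv 1 b a).mp hb
  rw [mul_one] at this
  exact ha.trans_lt this

theorem Le.trans {a b c : G} (h : Le φ a b) (h' : Le φ b c) : Le φ a c := by
  refine ⟨h.1.trans h'.1, ?_⟩
  have e : a⁻¹ * c = (a⁻¹ * b) * (b⁻¹ * c) := by group
  rw [e, ph_mul φ (d_inv_mul h.1) (d_inv_mul h'.1)]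
  exact one_le_mul' hinv h.2 h'.2

theorem Lt.trans_le {a b c : G} (h : Lt φ a b) (h' : Le φ b c) : Lt φ a c := by
  refine ⟨h.1.trans h'.1, ?_⟩
  have e : a⁻¹ * c = (a⁻¹ * b) * (b⁻¹ * c) := by group
  rw [e, ph_mul φ (d_inv_mul h.1) (d_inv_mul h'.1)]
  exact one_lt_mul_left hinv h.2 h'.2

theorem Le.trans_lt {a b c : G} (h : Le φ a b) (h' : Lt φ b c) : Lt φ a c := by
  refine ⟨h.1.trans h'.1, ?_⟩
  have e : a⁻¹ * c = (a⁻¹ * b) * (b⁻¹ * c) := by group
  rw [e, ph_mul φ (d_inv_mul h.1) (d_inv_mul h'.1)]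
  exact one_lt_mul_right hinv h.2 h'.2

theorem Lt.trans {a b c : G} (h : Lt φ a b) (h' : Lt φ b c) : Lt φ a c :=
  h.trans_le hinv h'.le

theorem inv_lt_iff (a : H) : a < 1 ↔ 1 < a⁻¹ := by
  have := lt_iff_mul hinv a 1 a⁻¹
  rwa [inv_mul_cancel, mul_one] at this

theorem inv_le_iff (a : H) : a ≤ 1 ↔ 1 ≤ a⁻¹ := by
  have := hinv a 1 a⁻¹
  rwa [inv_mul_cancel, mul_one] at this

theorem le_or_lt {a b : G} (h : d a = d b) : Le φ a b ∨ Lt φ b a := by
  rcases le_or_gt 1 (ph φ (a⁻¹ * b)) with h1 | h1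
  · exact Or.inl ⟨h, h1⟩
  · refine Or.inr ⟨h.symm, ?_⟩
    rw [inv_lt_iff hinv, ← ph_inv φ (d_inv_mul h)] at h1
    rwa [mul_inv_rev, inv_inv] at h1

/-- the comparison, seen from a base element -/
theorem ph_lt_iff {r a b : G} (ha : d a = d r) (hb : d b = d r) :
    ph φ (r⁻¹ * a) < ph φ (r⁻¹ * b) ↔ Lt φ a b := by
  have e : a⁻¹ * b = (r⁻¹ * a)⁻¹ * (r⁻¹ * b) := by group
  have ha' : d (r⁻¹ * a) = 1 := d_inv_mul ha.symm
  have hb' : d (r⁻¹ * b) = 1 := d_inv_mul hb.symm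
  have ha'' : d (r⁻¹ * a)⁻¹ = 1 := by rw [map_inv, ha', inv_one]
  unfold Lt
  rw [e, ph_mul φ ha'' hb', ph_inv φ ha', lt_iff_mul hinv _ _ (ph φ (r⁻¹ * a))⁻¹, inv_mul_cancel]
  simp [ha, hb]

theorem ph_le_iff {r a b : G} (ha : d a = d r) (hb : d b = d r) :
    ph φ (r⁻¹ * a) ≤ ph φ (r⁻¹ * b) ↔ Le φ a b := by
  have e : a⁻¹ * b = (r⁻¹ * a)⁻¹ * (r⁻¹ * b) := by group
  have ha' : d (r⁻¹ * a) = 1 := d_inv_mul ha.symm
  have hb' : d (r⁻¹ * b) = 1 := d_inv_mul hb.symm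
  have ha'' : d (r⁻¹ * a)⁻¹ = 1 := by rw [map_inv, ha', inv_one]
  unfold Le
  rw [e, ph_mul φ ha'' hb', ph_inv φ ha', hinv _ _ (ph φ (r⁻¹ * a))⁻¹, inv_mul_cancel]
  simp [ha, hb]

/-! ### Powers -/

theorem one_lt_pow' {a : H} (ha : 1 < a) {k : ℕ} (hk : 1 ≤ k) : 1 < a ^ k := by
  induction k with
  | zero => omega
  | succ k ih =>
    rcases Nat.eq_zero_or_pos k with rfl | h
    · simpa using ha
    · rw [pow_succ]
      exact one_lt_mul_left hinv (ih h) ha.le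

theorem one_le_pow' {a : H} (ha : 1 ≤ a) (k : ℕ) : 1 ≤ a ^ k := by
  induction k with
  | zero => simp
  | succ k ih =>
    rw [pow_succ]
    exact one_le_mul' hinv ih ha

/-- `b ^ q = a ^ p` -/
theorem root_le {a b : H} {p q : ℕ} (hq : 1 ≤ q) (h : b ^ q = a ^ p) (ha : 1 ≤ a) : 1 ≤ b := by
  by_contra hcon
  rw [not_le, inv_lt_iff hinv] at hcon
  have h1 := one_lt_pow' hinv hcon hq
  rw [inv_pow, h, ← inv_lt_iff hinv] at h1
  exact absurd (one_le_pow' hinv ha p) (not_le.mpr h1)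

theorem root_ge {a b : H} {p q : ℕ} (hq : 1 ≤ q) (h : b ^ q = a ^ p) (ha : a ≤ 1) : b ≤ 1 := by
  rw [inv_le_iff hinv] at ha ⊢
  refine root_le hinv (p := p) hq ?_ ha
  rw [inv_pow, inv_pow, h]

/-! ### The rule for a rational tangle -/

/-- The strands `x, y` enter a rational tangle and `x', y'` leave it. -/
theorem move_of_tangle {x y x' y' s r : G} (hx : x * x = 1) (hy : y * y = 1) (hx' : x' * x' = 1)
    (hy' : y' * y' = 1) (dx : d x = -1) (dy : d y = -1) (dx' : d x' = -1) (dy' : d y' = -1)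
    (hr : d (x * s) = d r) (hc : x' * y' = x * y) {p q : ℕ} (hq : 1 ≤ q) (δ : Bool)
    (hpq : (x' * x) ^ q = if δ then (y * x) ^ p else (x * y) ^ p) :
    Move δ (ph φ (r⁻¹ * (x * s))) (ph φ (r⁻¹ * (y * s))) (ph φ (r⁻¹ * (x' * s)))
      (ph φ (r⁻¹ * (y' * s))) := by
  have ix : x⁻¹ = x := inv_eq_of_mul_eq_one_right hx
  have iy : y⁻¹ = y := inv_eq_of_mul_eq_one_right hy
  have ix' : x'⁻¹ = x' := inv_eq_of_mul_eq_one_right hx'
  have iy' : y'⁻¹ = y' := inv_eq_of_mul_eq_one_right hy'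
  have e1 : d (x * s) = d r := hr
  have e2 : d (y * s) = d r := by rw [← hr, map_mul, map_mul, dx, dy]
  have e3 : d (x' * s) = d r := by rw [← hr, map_mul, map_mul, dx, dx']
  have e4 : d (y' * s) = d r := by rw [← hr, map_mul, map_mul, dx, dy']
  -- the elements `c = x y` and `δ = x' x`, conjugated by `s`
  set C : H := ph φ (s⁻¹ * (x * y) * s) with hC
  set E : H := ph φ (s⁻¹ * (x' * x) * s) with hE
  have dC : d (s⁻¹ * (x * y) * s) = 1 := by
    rw [map_mul, map_mul, map_mul, dx, dy, map_inv]; simp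
  have dE : d (s⁻¹ * (x' * x) * s) = 1 := by
    rw [map_mul, map_mul, map_mul, dx, dx', map_inv]; simp
  have c1 : (x * s)⁻¹ * (y * s) = s⁻¹ * (x * y) * s := by rw [mul_inv_rev, ix]; group
  have c2 : (x' * s)⁻¹ * (y' * s) = s⁻¹ * (x * y) * s := by
    rw [mul_inv_rev, ix', ← hc]; group
  have c3 : (x' * s)⁻¹ * (x * s) = s⁻¹ * (x' * x) * s := by rw [mul_inv_rev, ix']; group
  have c4 : (y' * s)⁻¹ * (y * s) = s⁻¹ * (x' * x) * s := by
    rw [mul_inv_rev, iy']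
    have h1 : y' = x' * x * y := by
      rw [mul_assoc, ← hc, ← mul_assoc, hx', one_mul]
    have h2 : y' * y = x' * x := by rw [h1, mul_assoc, hy, mul_one]
    calc s⁻¹ * y' * (y * s) = s⁻¹ * (y' * y) * s := by group
      _ = _ := by rw [h2]
  have flip : ∀ {a b : G}, d a = d b → (Lt φ b a ↔ ph φ (a⁻¹ * b) < 1) := by
    intro a b h
    have h1 : b⁻¹ * a = (a⁻¹ * b)⁻¹ := by group
    unfold Lt
    rw [h1, ph_inv φ (d_inv_mul h), ← inv_lt_iff hinv]
    simp [h]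
  have flip' : ∀ {a b : G}, d a = d b → (Le φ b a ↔ ph φ (a⁻¹ * b) ≤ 1) := by
    intro a b h
    have h1 : b⁻¹ * a = (a⁻¹ * b)⁻¹ := by group
    unfold Le
    rw [h1, ph_inv φ (d_inv_mul h), ← inv_le_iff hinv]
    simp [h]
  have k1 : ph φ (r⁻¹ * (x * s)) < ph φ (r⁻¹ * (y * s)) ↔ 1 < C := by
    rw [ph_lt_iff hinv e1 e2]; unfold Lt; rw [c1]; simp [e1, e2, hC]
  have k1' : ph φ (r⁻¹ * (y * s)) < ph φ (r⁻¹ * (x * s)) ↔ C < 1 := by
    rw [ph_lt_iff hinv e2 e1, flip (e1.trans e2.symm), c1]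
  have k2 : ph φ (r⁻¹ * (x' * s)) < ph φ (r⁻¹ * (y' * s)) ↔ 1 < C := by
    rw [ph_lt_iff hinv e3 e4]; unfold Lt; rw [c2]; simp [e3, e4, hC]
  have k2' : ph φ (r⁻¹ * (y' * s)) < ph φ (r⁻¹ * (x' * s)) ↔ C < 1 := by
    rw [ph_lt_iff hinv e4 e3, flip (e3.trans e4.symm), c2]
  have k3 : ph φ (r⁻¹ * (x' * s)) ≤ ph φ (r⁻¹ * (x * s)) ↔ 1 ≤ E := by
    rw [ph_le_iff hinv e3 e1]; unfold Le; rw [c3]; simp [e3, e1, hE]
  have k3' : ph φ (r⁻¹ * (x * s)) ≤ ph φ (r⁻¹ * (x' * s)) ↔ E ≤ 1 := by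
    rw [ph_le_iff hinv e1 e3, flip' (e3.trans e1.symm), c3]
  have k4 : ph φ (r⁻¹ * (y' * s)) ≤ ph φ (r⁻¹ * (y * s)) ↔ 1 ≤ E := by
    rw [ph_le_iff hinv e4 e2]; unfold Le; rw [c4]; simp [e4, e2, hE]
  have k4' : ph φ (r⁻¹ * (y * s)) ≤ ph φ (r⁻¹ * (y' * s)) ↔ E ≤ 1 := by
    rw [ph_le_iff hinv e2 e4, flip' (e4.trans e2.symm), c4]
  -- the relation
  have conj_pow : ∀ (g : G) (k : ℕ), (s⁻¹ * g * s) ^ k = s⁻¹ * g ^ k * s := by
    intro g k
    have := conj_pow (i := k) (a := s⁻¹) (b := g)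
    rwa [inv_inv] at this
  have hEC : E ^ q = if δ then C⁻¹ ^ p else C ^ p := by
    rw [hE, ← ph_pow φ dE, conj_pow, hpq]
    cases δ with
    | false =>
      simp only [Bool.false_eq_true, if_false]
      rw [← conj_pow, ph_pow φ dC]
    | true =>
      simp only [if_true]
      have h1 : y * x = (x * y)⁻¹ := by rw [mul_inv_rev, ix, iy]
      have h2 : s⁻¹ * (x * y)⁻¹ * s = (s⁻¹ * (x * y) * s)⁻¹ := by group
      rw [h1, ← conj_pow, h2, ph_pow φ, ph_inv φ dC]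
      rw [map_inv, dC, inv_one]
  rcases lt_trichotomy C 1 with h | h | h
  · cases δ with
    | false =>
      simp only [Bool.false_eq_true, if_false] at hEC
      have hE1 := root_ge hinv hq hEC h.le
      exact Or.inr (Or.inr (Or.inr (Or.inr ⟨rfl, k1'.mpr h, k2'.mpr h, k3'.mpr hE1, k4'.mpr hE1⟩)))
    | true =>
      simp only [if_true] at hEC
      have hE1 := root_le hinv hq hEC ((inv_le_iff hinv _).mp h.le)
      exact Or.inr (Or.inr (Or.inl ⟨rfl, k1'.mpr h, k2'.mpr h, k3.mpr hE1, k4.mpr hE1⟩))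
  · have hE0 : E = 1 := by
      rw [h, inv_one, one_pow, ite_self] at hEC
      refine le_antisymm (root_ge hinv (p := 1) hq (by rw [hEC, one_pow]) le_rfl)
        (root_le hinv (p := 1) hq (by rw [hEC, one_pow]) le_rfl)
    refine Or.inl ⟨le_antisymm ?_ ?_, le_antisymm ?_ ?_, le_antisymm ?_ ?_⟩
    · exact not_lt.mp fun h' => (k1'.mp h').ne h
    · exact not_lt.mp fun h' => (k1.mp h').ne' h
    · exact k3.mpr hE0.ge
    · exact k3'.mpr hE0.le
    · exact k4.mpr hE0.ge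
    · exact k4'.mpr hE0.le
  · cases δ with
    | false =>
      simp only [Bool.false_eq_true, if_false] at hEC
      have hE1 := root_le hinv hq hEC h.le
      exact Or.inr (Or.inr (Or.inr (Or.inl ⟨rfl, k1.mpr h, k2.mpr h, k3.mpr hE1, k4.mpr hE1⟩)))
    | true =>
      simp only [if_true] at hEC
      have hE1 := root_ge hinv hq hEC (by rw [inv_le_iff hinv, inv_inv]; exact h.le)
      exact Or.inr (Or.inl ⟨rfl, k1.mpr h, k2.mpr h, k3'.mpr hE1, k4'.mpr hE1⟩)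

end

end Pool.Agent.Helper50.BA
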