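import Mathlib

set_option autoImplicit false

/-!
# Curves in the strip of an infinite braid diagram

`n` strands run from left to right; `(τ, k)` is the position of strand `k < n` at time `τ`, between
the gaps `k` and `k + 1`. Between the times `τ` and `τ + 1` the strands `i τ` and `i τ + 1` cross, so
that the gap `i τ + 1` is interrupted there; all other gaps continue. A site is a pair `(τ, g)`,
`g ≤ n`. A path of sites may cross the strand `(τ, k)` unless it is forbidden by `X`, and stays at
the times that satisfy `P`.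
-/

namespace Pool.Agent.Helper50.BA

open Relation

variable (n : ℕ) (i : ℤ → ℕ)

/-- One step of a path of sites. -/
inductive Step (X : ℤ → ℕ → Prop) (P : ℤ → Prop) : ℤ × ℕ → ℤ × ℕ → Prop
  | down {τ : ℤ} {k : ℕ} (hk : k < n) (hX : ¬ X τ k) (hP : P τ) : Step X P (τ, k) (τ, k + 1)
  | up {τ : ℤ} {k : ℕ} (hk : k < n) (hX : ¬ X τ k) (hP : P τ) : Step X P (τ, k + 1) (τ, k)
  | right {τ : ℤ} {g : ℕ} (hg : g ≠ i τ + 1) (hP : P τ) (hP' : P (τ + 1)) :
      Step X P (τ, g) (τ + 1, g)
  | left {τ : ℤ} {g : ℕ} (hg : g ≠ i τ + 1) (hP : P τ) (hP' : P (τ + 1)) :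
      Step X P (τ + 1, g) (τ, g)

/-- The site can be reached from above. -/
def Reach (X : ℤ → ℕ → Prop) (P : ℤ → Prop) (p : ℤ × ℕ) : Prop :=
  ∃ τ, P τ ∧ ReflTransGen (Step n i X P) (τ, 0) p

variable {n i}
variable {X : ℤ → ℕ → Prop} {P : ℤ → Prop}

theorem Step.symm {p q : ℤ × ℕ} (h : Step n i X P p q) : Step n i X P q p := by
  cases h with
  | down a b c => exact .up a b c
  | up a b c => exact .down a b c
  | right a b c => exact .left a b c
  | left a b c => exact .right a b c

/-- Counting how often a path crosses a strand up to time `τ`. -/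
theorem exists_count (hi : ∀ τ, i τ + 2 ≤ n) {p : ℤ × ℕ} (h : Reach n i X P p) :
    ∃ C : ℤ → ℕ → ℤ,
      (∀ τ k, X τ k → C τ k = C (τ - 1) k) ∧
      (∀ τ, C τ (i τ) - C τ (i τ + 1) = if p.2 = i τ + 1 ∧ p.1 ≤ τ then 1 else 0) ∧
      (∀ τ, (∀ σ, P σ → τ < σ) → ∀ k, C τ k = 0) ∧
      (∀ τ, (∀ σ, P σ → σ ≤ τ) → ∀ k, C τ k = if k < p.2 then 1 else 0) ∧
      (∃ T, ∀ τ, T ≤ τ → ∀ k, C τ k = if k < p.2 then 1 else 0) ∧
      (∃ T, ∀ τ, τ < T → ∀ k, C τ k = 0) := by
  obtain ⟨τ₀, -, h⟩ := h
  induction h with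
  | refl =>
    refine ⟨fun _ _ => 0, fun _ _ _ => rfl, fun τ => ?_, fun _ _ _ => rfl, fun _ _ _ => ?_,
      ⟨0, fun _ _ _ => ?_⟩, ⟨0, fun _ _ _ => rfl⟩⟩
    · simp
    · simp
    · simp
  | @tail b c _ hbc ih =>
    obtain ⟨C, h1, h2, h3, h4, ⟨T, h5⟩, ⟨T', h6⟩⟩ := ih
    cases hbc with
    | @down σ g hk hX hP =>
      refine ⟨fun τ k => C τ k + if k = g ∧ σ ≤ τ then 1 else 0, fun τ k hX' => ?_, fun τ => ?_,
        fun τ hτ k => ?_, fun τ hτ k => ?_, ⟨max T σ, fun τ hτ k => ?_⟩,
        ⟨min T' σ, fun τ hτ k => ?_⟩⟩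
      · dsimp only
        rw [h1 τ k hX']
        congr 1
        by_cases hkg : k = g
        · subst hkg
          have hne : τ ≠ σ := by
            rintro rfl
            exact hX hX'
          split_ifs <;> omega
        · simp [hkg]
      · have := h2 τ
        dsimp only at this ⊢
        split_ifs at this ⊢ <;> omega
      · dsimp only
        rw [h3 τ hτ k, if_neg]
        · rfl
        · rintro ⟨_, h⟩
          have := hτ σ hP
          omega
      · have := h4 τ hτ k
        have h7 := hτ σ hP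
        dsimp only at this ⊢
        split_ifs at this ⊢ <;> omega
      · have := h5 τ (le_trans (le_max_left _ _) hτ) k
        have h7 := le_trans (le_max_right _ _) hτ
        dsimp only at this ⊢
        split_ifs at this ⊢ <;> omega
      · have := h6 τ (lt_of_lt_of_le hτ (min_le_left _ _)) k
        have h7 := lt_of_lt_of_le hτ (min_le_right _ _)
        dsimp only at this ⊢
        split_ifs at this ⊢ <;> omega
    | @up σ g hk hX hP =>
      refine ⟨fun τ k => C τ k - if k = g ∧ σ ≤ τ then 1 else 0, fun τ k hX' => ?_, fun τ => ?_,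
        fun τ hτ k => ?_, fun τ hτ k => ?_, ⟨max T σ, fun τ hτ k => ?_⟩,
        ⟨min T' σ, fun τ hτ k => ?_⟩⟩
      · dsimp only
        rw [h1 τ k hX']
        congr 1
        by_cases hkg : k = g
        · subst hkg
          have hne : τ ≠ σ := by
            rintro rfl
            exact hX hX'
          split_ifs <;> omega
        · simp [hkg]
      · have := h2 τ
        dsimp only at this ⊢
        split_ifs at this ⊢ <;> omega
      · dsimp only
        rw [h3 τ hτ k, if_neg]
        · rfl
        · rintro ⟨_, h⟩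
          have := hτ σ hP
          omega
      · have := h4 τ hτ k
        have h7 := hτ σ hP
        dsimp only at this ⊢
        split_ifs at this ⊢ <;> omega
      · have := h5 τ (le_trans (le_max_left _ _) hτ) k
        have h7 := le_trans (le_max_right _ _) hτ
        dsimp only at this ⊢
        split_ifs at this ⊢ <;> omega
      · have := h6 τ (lt_of_lt_of_le hτ (min_le_left _ _)) k
        have h7 := lt_of_lt_of_le hτ (min_le_right _ _)
        dsimp only at this ⊢
        split_ifs at this ⊢ <;> omega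
    | @right σ g hg hP hP' =>
      refine ⟨C, h1, fun τ => ?_, h3, h4, ⟨T, h5⟩, ⟨T', h6⟩⟩
      have := h2 τ
      dsimp only at this ⊢
      by_cases hτ : τ = σ
      · subst hτ
        rw [this, if_neg, if_neg]
        · rintro ⟨h, _⟩; exact hg h
        · rintro ⟨h, _⟩; exact hg h
      · split_ifs at this ⊢ <;> omega
    | @left σ g hg hP hP' =>
      refine ⟨C, h1, fun τ => ?_, h3, h4, ⟨T, h5⟩, ⟨T', h6⟩⟩
      have := h2 τ
      dsimp only at this ⊢
      by_cases hτ : τ = σ
      · subst hτ
        rw [this, if_neg, if_neg]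
        · rintro ⟨h, _⟩; exact hg h
        · rintro ⟨h, _⟩; exact hg h
      · split_ifs at this ⊢ <;> omega

end Pool.Agent.Helper50.BA
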