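import Pool.Agent.Helper50.BA.Strip

set_option autoImplicit false

/-!
# The maximum principle

The strands of an infinite alternating braid diagram carry values in a linear order. If the set of
strands with high values contains no curve from above to below on either side then it is empty.
-/

namespace Pool.Agent.Helper50.BA

open Relation

/-- The rule for a crossing of type `δ` with values `a, b` before and `a', b'` after it. -/
def Move {A : Type*} [LinearOrder A] (δ : Bool) (a b a' b' : A) : Prop :=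
  (a = b ∧ a' = a ∧ b' = b) ∨
  (δ = true ∧ a < b ∧ a' < b' ∧ a ≤ a' ∧ b ≤ b') ∨
  (δ = true ∧ b < a ∧ b' < a' ∧ a' ≤ a ∧ b' ≤ b) ∨
  (δ = false ∧ a < b ∧ a' < b' ∧ a' ≤ a ∧ b' ≤ b) ∨
  (δ = false ∧ b < a ∧ b' < a' ∧ a ≤ a' ∧ b ≤ b')

/-- An infinite alternating braid diagram with values. -/
structure Diag {A : Type*} [LinearOrder A] (n : ℕ) (i : ℤ → ℕ) (δ : ℕ → Bool)
    (v : ℤ → ℕ → A) : Prop where
  hi : ∀ τ, i τ + 2 ≤ n
  hδ : ∀ k, δ (k + 1) = !δ k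
  stay : ∀ τ k, k < n → k ≠ i τ → k ≠ i τ + 1 → v (τ + 1) k = v τ k
  move : ∀ τ, Move (δ (i τ)) (v τ (i τ)) (v τ (i τ + 1)) (v (τ + 1) (i τ)) (v (τ + 1) (i τ + 1))

variable {A : Type*} [LinearOrder A] {n : ℕ} {i : ℤ → ℕ} {δ : ℕ → Bool} {v : ℤ → ℕ → A}

theorem Diag.before (D : Diag n i δ v) {τ : ℤ} {k : ℕ} (hk : k = i τ ∨ k = i τ + 1)
    (hδ : δ k = false) :
    (∃ l, (l = i τ ∨ l = i τ + 1) ∧ v τ k < v τ l) ∨ v τ k < v (τ + 1) k ∨
      v (τ + 1) k = v τ k := by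
  have hm := D.move τ
  rcases hk with rfl | rfl
  · rw [hδ] at hm
    rcases hm with ⟨h1, h2, h3⟩ | ⟨h, _⟩ | ⟨h, _⟩ | ⟨_, h1, h2, h3, h4⟩ | ⟨_, h1, h2, h3, h4⟩
    · exact Or.inr (Or.inr h2)
    · cases h
    · cases h
    · exact Or.inl ⟨_, Or.inr rfl, h1⟩
    · exact Or.inr (h3.lt_or_eq.imp_right Eq.symm)
  · have hδ' : δ (i τ) = true := by
      have := D.hδ (i τ)
      rw [hδ] at this
      simpa using this.symm
    rw [hδ'] at hm
    rcases hm with ⟨h1, h2, h3⟩ | ⟨_, h1, h2, h3, h4⟩ | ⟨_, h1, h2, h3, h4⟩ | ⟨h, _⟩ | ⟨h, _⟩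
    · exact Or.inr (Or.inr h3)
    · exact Or.inr (h4.lt_or_eq.imp_right Eq.symm)
    · exact Or.inl ⟨_, Or.inl rfl, h1⟩
    · cases h
    · cases h

theorem Diag.after (D : Diag n i δ v) {τ : ℤ} {k : ℕ} (hk : k = i τ ∨ k = i τ + 1)
    (hδ : δ k = true) :
    (∃ l, (l = i τ ∨ l = i τ + 1) ∧ v (τ + 1) k < v (τ + 1) l) ∨ v (τ + 1) k ≤ v τ k ∨
      ∃ l, (l = i τ ∨ l = i τ + 1) ∧ v (τ + 1) l = v (τ + 1) k ∧ δ l = false := by
  have hm := D.move τ
  have hd := D.hδ (i τ)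
  rcases hk with rfl | rfl
  · rw [hδ] at hm hd
    rcases hm with ⟨h1, h2, h3⟩ | ⟨_, h1, h2, h3, h4⟩ | ⟨_, h1, h2, h3, h4⟩ | ⟨h, _⟩ | ⟨h, _⟩
    · exact Or.inr (Or.inr ⟨_, Or.inr rfl, by rw [h3, h2, h1], by simpa using hd⟩)
    · exact Or.inl ⟨_, Or.inr rfl, h2⟩
    · exact Or.inr (Or.inl h3)
    · cases h
    · cases h
  · have hδ' : δ (i τ) = false := by
      rw [hδ] at hd
      simpa using hd.symm
    rw [hδ'] at hm
    rcases hm with ⟨h1, h2, h3⟩ | ⟨h, _⟩ | ⟨h, _⟩ | ⟨_, h1, h2, h3, h4⟩ | ⟨_, h1, h2, h3, h4⟩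
    · exact Or.inr (Or.inr ⟨_, Or.inl rfl, by rw [h3, h2, h1], hδ'⟩)
    · cases h
    · cases h
    · exact Or.inr (Or.inl h4)
    · exact Or.inl ⟨_, Or.inl rfl, h2⟩

/-- A strand with a high value that is enclosed by curves of strands with low values. -/
theorem trap (D : Diag n i δ v) {H : ℤ → ℕ → Prop}
    (hH : ∀ τ k τ' k', k' < n → H τ k → v τ k ≤ v τ' k' → H τ' k')
    {τ₀ : ℤ} {k₀ : ℕ} (hk₀ : k₀ < n) (h₀ : H τ₀ k₀)
    (hr : ∃ τ, Reach n i H (fun σ => τ₀ + 1 ≤ σ) (τ, n))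
    (hl : ∃ τ, Reach n i H (fun σ => σ ≤ τ₀) (τ, n)) : False := by
  classical
  obtain ⟨τr, hr⟩ := hr
  obtain ⟨τl, hl⟩ := hl
  obtain ⟨C, c1, c2, c3, -, ⟨T, c5⟩, -⟩ := exists_count D.hi hr
  obtain ⟨E, e1, e2, -, e4, -, ⟨S, e6⟩⟩ := exists_count D.hi hl
  have c2' : ∀ τ, C τ (i τ) = C τ (i τ + 1) := by
    intro τ
    have := c2 τ
    rw [if_neg] at this
    · omega
    · rintro ⟨h, _⟩
      have h' : n = i τ + 1 := h
      have := D.hi τ
      omega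
  have e2' : ∀ τ, E τ (i τ) = E τ (i τ + 1) := by
    intro τ
    have := e2 τ
    rw [if_neg] at this
    · omega
    · rintro ⟨h, _⟩
      have h' : n = i τ + 1 := h
      have := D.hi τ
      omega
  -- the enclosed strands
  let Q : ℤ × ℕ → Prop := fun z => z.2 < n ∧ H z.1 z.2 ∧ C z.1 z.2 = 0 ∧ E z.1 z.2 = 1
  have q0 : Q (τ₀, k₀) := by
    refine ⟨hk₀, h₀, c3 τ₀ (fun σ hσ => by omega) k₀, ?_⟩
    have := e4 τ₀ (fun σ hσ => hσ) k₀
    rw [if_pos hk₀] at this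
    exact this
  have qT : ∀ τ k, Q (τ, k) → τ < T := by
    rintro τ k ⟨h1, _, h3, _⟩
    by_contra hcon
    have := c5 τ (not_lt.mp hcon) k
    rw [if_pos h1] at this
    rw [this] at h3
    exact one_ne_zero h3
  have qS : ∀ τ k, Q (τ, k) → S ≤ τ := by
    rintro τ k ⟨_, _, _, h4⟩
    by_contra hcon
    have := e6 τ (not_le.mp hcon) k
    rw [this] at h4
    exact zero_ne_one h4
  have qn : ∀ τ k, Q (τ, k) → k < n := fun τ k h => h.1
  have step_r : ∀ τ k, Q (τ, k) → k ≠ i τ → k ≠ i τ + 1 → Q (τ + 1, k) := by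
    rintro τ k ⟨h1, h2, h3, h4⟩ h5 h6
    have h7 : H (τ + 1) k := hH _ _ _ _ h1 h2 (D.stay τ k h1 h5 h6).ge
    refine ⟨h1, h7, ?_, ?_⟩
    · have := c1 _ _ h7
      rw [add_sub_cancel_right] at this
      rw [this]; exact h3
    · have := e1 _ _ h7
      rw [add_sub_cancel_right] at this
      rw [this]; exact h4
  have step_l : ∀ τ k, Q (τ + 1, k) → k ≠ i τ → k ≠ i τ + 1 → Q (τ, k) := by
    rintro τ k ⟨h1, h2, h3, h4⟩ h5 h6
    have h7 : H τ k := hH _ _ _ _ h1 h2 (D.stay τ k h1 h5 h6).le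
    refine ⟨h1, h7, ?_, ?_⟩
    · have := c1 _ _ h2
      rw [add_sub_cancel_right] at this
      rw [← this]; exact h3
    · have := e1 _ _ h2
      rw [add_sub_cancel_right] at this
      rw [← this]; exact h4
  have hln : ∀ τ l, (l = i τ ∨ l = i τ + 1) → l < n := by
    intro τ l hl
    have := D.hi τ
    rcases hl with rfl | rfl <;> omega
  -- at a crossing
  have cr : ∀ τ, C τ (i τ) = 0 → E τ (i τ) = 1 → ∀ l, (l = i τ ∨ l = i τ + 1) →
      (H τ l → Q (τ, l)) ∧ (H (τ + 1) l → Q (τ + 1, l)) := by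
    intro τ h1 h2 l hl
    have h3 : C τ l = 0 ∧ E τ l = 1 := by
      rcases hl with rfl | rfl
      · exact ⟨h1, h2⟩
      · exact ⟨by rw [← c2']; exact h1, by rw [← e2']; exact h2⟩
    refine ⟨fun h => ⟨hln τ l hl, h, h3.1, h3.2⟩, fun h => ⟨hln τ l hl, h, ?_, ?_⟩⟩
    · have := c1 _ _ h
      rw [add_sub_cancel_right] at this
      rw [this]; exact h3.1
    · have := e1 _ _ h
      rw [add_sub_cancel_right] at this
      rw [this]; exact h3.2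
  have cr_b : ∀ τ k, Q (τ, k) → (k = i τ ∨ k = i τ + 1) → C τ (i τ) = 0 ∧ E τ (i τ) = 1 := by
    rintro τ k ⟨_, _, h3, h4⟩ hk
    rcases hk with rfl | rfl
    · exact ⟨h3, h4⟩
    · exact ⟨by rw [c2']; exact h3, by rw [e2']; exact h4⟩
  have cr_a : ∀ τ k, Q (τ + 1, k) → (k = i τ ∨ k = i τ + 1) →
      C τ (i τ) = 0 ∧ E τ (i τ) = 1 := by
    rintro τ k ⟨_, h2, h3, h4⟩ hk
    have h5 := c1 _ _ h2
    have h6 := e1 _ _ h2
    simp only [add_sub_cancel_right] at h5 h6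
    have h7 : C τ k = 0 := by rw [← h5]; exact h3
    have h8 : E τ k = 1 := by rw [← h6]; exact h4
    rcases hk with rfl | rfl
    · exact ⟨h7, h8⟩
    · exact ⟨by rw [c2']; exact h7, by rw [e2']; exact h8⟩
  let Z : Finset (ℤ × ℕ) := (Finset.Icc S T ×ˢ Finset.range n).filter Q
  have hZ : ∀ z, z ∈ Z ↔ Q z := by
    rintro ⟨τ, k⟩
    simp only [Z, Finset.mem_filter, Finset.mem_product, Finset.mem_Icc, Finset.mem_range]
    exact ⟨fun h => h.2, fun h => ⟨⟨⟨qS _ _ h, (qT _ _ h).le⟩, h.1⟩, h⟩⟩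
  obtain ⟨zm, hzm, hmax⟩ := Z.exists_max_image (fun z => v z.1 z.2) ⟨_, (hZ _).mpr q0⟩
  have hmax' : ∀ τ k, Q (τ, k) → v τ k ≤ v zm.1 zm.2 := fun τ k h => hmax _ ((hZ _).mpr h)
  set M := v zm.1 zm.2 with hM
  -- a strand with value `M` of the type `δ = false`
  have hex : ∃ z ∈ Z, v z.1 z.2 = M ∧ δ z.2 = false := by
    by_contra hcon
    push_neg at hcon
    obtain ⟨⟨τ, k⟩, hz, hmin⟩ := (Z.filter fun z => v z.1 z.2 = M).exists_min_image
      (fun z => z.1) ⟨zm, by simp [hzm, hM]⟩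
    rw [Finset.mem_filter] at hz
    obtain ⟨hz, hzM⟩ := hz
    have hzM : v τ k = M := hzM
    have hq := (hZ _).mp hz
    have hδk : δ k = true := by simpa using hcon _ hz hzM
    obtain ⟨σ, rfl⟩ : ∃ σ, τ = σ + 1 := ⟨τ - 1, by ring⟩
    by_cases hk : k = i σ ∨ k = i σ + 1
    · obtain ⟨h1, h2⟩ := cr_a _ _ hq hk
      rcases D.after hk hδk with ⟨l, hl, h3⟩ | h3 | ⟨l, hl, h3, h4⟩
      · have := hmax' _ _ ((cr σ h1 h2 l hl).2 (hH _ _ _ _ (hln σ l hl) hq.2.1 h3.le))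
        rw [← hzM] at this
        exact absurd h3 (not_lt.mpr this)
      · have h4 := (cr σ h1 h2 k hk).1 (hH _ _ _ _ hq.1 hq.2.1 h3)
        have h5 : v σ k = M := le_antisymm (hmax' _ _ h4) (hzM ▸ h3)
        have h7 := hmin (σ, k) (by
          rw [Finset.mem_filter, hZ]
          exact ⟨h4, h5⟩)
        have h7 : σ + 1 ≤ σ := h7
        omega
      · have h5 := (cr σ h1 h2 l hl).2 (hH _ _ _ _ (hln σ l hl) hq.2.1 h3.ge)
        exact hcon _ ((hZ _).mpr h5) (h3.trans hzM) h4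
    · rw [not_or] at hk
      have h5 := step_l σ k hq hk.1 hk.2
      have h6 := D.stay σ k hq.1 hk.1 hk.2
      have h7 := hmin (σ, k) (by
        rw [Finset.mem_filter, hZ]
        exact ⟨h5, by rw [← h6]; exact hzM⟩)
      have h7 : σ + 1 ≤ σ := h7
      omega
  obtain ⟨z₀, hz₀, hz₀'⟩ := hex
  obtain ⟨⟨τ, k⟩, hz, hmaxt⟩ := (Z.filter fun z => v z.1 z.2 = M ∧ δ z.2 = false).exists_max_image
    (fun z => z.1) ⟨z₀, by rw [Finset.mem_filter]; exact ⟨hz₀, hz₀'⟩⟩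
  rw [Finset.mem_filter] at hz
  obtain ⟨hz, hzM, hδk⟩ := hz
  have hzM : v τ k = M := hzM
  have hδk : δ k = false := hδk
  have hq := (hZ _).mp hz
  have later : Q (τ + 1, k) → v (τ + 1) k = v τ k → False := by
    intro h1 h2
    have h7 := hmaxt (τ + 1, k) (by
      rw [Finset.mem_filter, hZ]
      exact ⟨h1, h2.trans hzM, hδk⟩)
    have h7 : τ + 1 ≤ τ := h7
    omega
  by_cases hk : k = i τ ∨ k = i τ + 1
  · obtain ⟨h1, h2⟩ := cr_b _ _ hq hk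
    rcases D.before hk hδk with ⟨l, hl, h3⟩ | h3 | h3
    · have := hmax' _ _ ((cr τ h1 h2 l hl).1 (hH _ _ _ _ (hln τ l hl) hq.2.1 h3.le))
      rw [← hzM] at this
      exact absurd h3 (not_lt.mpr this)
    · have := hmax' _ _ ((cr τ h1 h2 k hk).2 (hH _ _ _ _ hq.1 hq.2.1 h3.le))
      rw [← hzM] at this
      exact absurd h3 (not_lt.mpr this)
    · exact later ((cr τ h1 h2 k hk).2 (hH _ _ _ _ hq.1 hq.2.1 h3.ge)) h3
  · rw [not_or] at hk
    exact later (step_r τ k hq hk.1 hk.2) (D.stay τ k hq.1 hk.1 hk.2)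

end Pool.Agent.Helper50.BA
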